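import Pool.Agent.P.MP_74dd9d_nt.PS.Sift
import Pool.Agent.P.MP_74dd9d_nt.Cover

/-! The finite counting bound for the primes that are not covered. -/

namespace Pool.Agent.P.MP_74dd9d_nt.PS

open Finset Filter Topology

/-- the classes removed by the sieve -/
def EE (u s q t : ℕ) : Prop :=
  ∃ _ : Fact q.Prime, Ex u (-(s : ZMod q) ^ 2) ((s : ZMod q) * (t : ZMod q) + 1)

lemma cover {L a b : ℕ} (hL : 0 < L) {Q : Finset ℕ} (hb : 0 < b)
    (hQ : ∀ q ∈ Q, q.Prime ∧ 3 ≤ q ∧ q - 1 ∣ L ∧ ¬ q ∣ a * b + 1)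
    (h : ¬ ∃ l, IsQRC (a * b + 1) b l Q) :
    (∃ u ∈ Icc 1 L, ∀ q ∈ Q, ¬ q ∣ a → ¬ EE u a q b) ∧
      ∃ u ∈ Icc 1 L, ∀ q ∈ Q, ¬ q ∣ b → ¬ EE u b q a := by
  classical
  have hone : ∀ q ∈ Q, (a * b + 1) ^ L ≡ 1 [MOD q] := fun q hq => by
    obtain ⟨a1, -, ⟨m, rfl⟩, a4⟩ := hQ q hq
    have := (Nat.ModEq.pow_card_sub_one_eq_one a1 ((Nat.coprime_comm.1
      ((Nat.Prime.coprime_iff_not_dvd a1).2 a4)))).pow m
    rwa [one_pow, ← pow_mul] at this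
  have hex : ∃ l, 0 < l ∧ ∀ q ∈ Q, (a * b + 1) ^ l ≡ 1 [MOD q] := ⟨L, hL, hone⟩
  obtain ⟨n, hn⟩ : ∃ n, ∀ q ∈ Q, jacobiSym (Delta (a * b + 1) b n) q = -1 := by
    by_contra hc
    push Not at hc
    refine h ⟨Nat.find hex, fun q hq => (hQ q hq).1, (Nat.find_spec hex).1, (Nat.find_spec hex).2,
      fun m m0 ml => ?_, fun n => (hc n).imp fun q hq =>
        ⟨hq.1, Or.inr ⟨by have := (hQ q hq.1).2.1; omega, hq.2⟩⟩⟩
    have := Nat.find_min hex ml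
    push Not at this
    exact this m0
  have key : ∀ q ∈ Q, ∀ _ : Fact q.Prime, ((a : ZMod q) * b + 1) ^ L = 1 ∧ ¬ IsSquare
      ((b * ((a : ZMod q) * b + 1) ^ n + a) ^ 2 + 4 * ((a : ZMod q) * b + 1) ^ n) := by
    intro q hq _
    refine ⟨by simpa using (ZMod.natCast_eq_natCast_iff _ _ _).2 (hone q hq), fun hs => ?_⟩
    refine ZMod.nonsquare_of_jacobiSym_eq_neg_one (hn q hq) ?_
    simp only [Delta, Nat.add_sub_cancel, Nat.mul_div_cancel _ hb]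
    push_cast
    exact hs
  have m1 := Nat.mod_lt (n + (L - 1)) hL
  have m2 := Nat.mod_lt n hL
  refine ⟨⟨(n + (L - 1)) % L + 1, mem_Icc.2 ⟨by omega, by omega⟩, fun q hq hd ⟨_, h0, hs⟩ => ?_⟩,
    ⟨L - n % L, mem_Icc.2 ⟨by omega, by omega⟩, fun q hq hd ⟨_, h0, hs⟩ => ?_⟩⟩
  · obtain ⟨k1, k2⟩ := key q hq ‹_›
    have ha : (a : ZMod q) ≠ 0 := by rwa [Ne, ZMod.natCast_eq_zero_iff]
    rw [pow_succ _ (_ % L), ← pow_eq_pow_mod _ k1, ← pow_succ,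
      show n + (L - 1) + 1 = n + L by omega, pow_add, k1, mul_one] at hs
    have h1 := pow_ne_zero n h0
    refine k2 (Eq.subst (motive := IsSquare) ?_
      (hs.mul (IsSquare.sq (((a : ZMod q) * b + 1) ^ n / a))))
    rw [lam]
    field_simp
    ring
  · rw [mul_comm (b : ZMod q)] at h0 hs
    obtain ⟨k1, k2⟩ := key q hq ‹_›
    have ha : (b : ZMod q) ≠ 0 := by rwa [Ne, ZMod.natCast_eq_zero_iff]
    rw [pow_sub₀ _ h0 m2.le, ← pow_eq_pow_mod _ k1, k1, one_mul, div_inv_eq_mul] at hs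
    refine k2 (Eq.subst (motive := IsSquare) ?_ (hs.mul (IsSquare.sq (b : ZMod q)⁻¹)))
    rw [lam]
    field_simp
    ring

lemma dens {u s q : ℕ} [Fact q.Prime] (hs : ¬ q ∣ s) :
    ∑ t ∈ range q, ind (EE u s q t) = TT u (-(s : ZMod q) ^ 2) := by
  have ha : (s : ZMod q) ≠ 0 := by rwa [Ne, ZMod.natCast_eq_zero_iff]
  rw [TT, ← ((Equiv.mulLeft₀ _ ha).trans (Equiv.addRight 1)).sum_comp, ← sum_range_zmod]
  exact sum_congr rfl fun t _ => congrArg ind (propext ⟨fun ⟨_, h⟩ => h, fun h => ⟨_, h⟩⟩)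

lemma core {x z k N L : ℕ} (hL : 0 < L) {Q : Finset ℕ}
    (hQ : ∀ q ∈ Q, q.Prime ∧ 3 ≤ q ∧ q - 1 ∣ L ∧ q ≤ z)
    (hg : ∀ u ≠ 0, ∃ P ⊆ Q, N + Nat.log 2 x ≤ #P ∧
      ∀ q ∈ P, ∀ _ : Fact q.Prime, ∀ β : ZMod q, β ≠ 0 → (q : ℝ) / 100 ≤ TT u β)
    {D G : ℝ} (hD : 1 ≤ D) (hk : (z : ℝ) ^ k ≤ D) (G0 : 0 < G)
    (hG : G ≤ N.choose k * (1 / 100) ^ k) (B : Finset ℕ)
    (hB : ∀ c ∈ B, c ≤ x ∧ c.Prime ∧ ¬ ∀ b, 1 ≤ b → b ∣ c - 1 → ∃ l, IsQRC c b l Q) :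
    (#B : ℝ) ≤ z + 1 + L * ((x * (1 + Real.log x) + √x) / G + √x * (2 * D ^ 4)) := by
  classical
  set S : ℕ → ℕ → Finset ℕ := fun s u => {t ∈ range (x / s + 1) | ∀ q ∈ Q, ¬ q ∣ s → ¬ EE u s q t}
  have c1 : B ⊆ range (z + 1) ∪ (Icc 1 x.sqrt).biUnion fun s => (Icc 1 L).biUnion fun u =>
      (S s u).image fun t => s * t + 1 := by
    intro c hc
    obtain ⟨a1, a2, a3⟩ := hB c hc
    rw [mem_union, mem_range, or_iff_not_imp_left]
    intro hz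
    push Not at a3
    obtain ⟨b, b1, ⟨a, ha⟩, b3⟩ := a3
    have h2 := a2.two_le
    obtain rfl : a * b + 1 = c := by rw [mul_comm, ← ha]; omega
    have a0 : 0 < a := Nat.pos_of_ne_zero (by rintro rfl; omega)
    obtain ⟨⟨u, u1, u2⟩, ⟨v, v1, v2⟩⟩ := cover hL (a := a) b1 (fun q hq => by
      obtain ⟨q1, q2, q3, q4⟩ := hQ q hq
      exact ⟨q1, q2, q3, fun hd => by
        have := (Nat.prime_dvd_prime_iff_eq q1 a2).1 hd; omega⟩) (not_exists.2 b3)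
    simp only [mem_biUnion, mem_image]
    rcases le_total a b with h | h
    · exact ⟨a, mem_Icc.2 ⟨a0, Nat.le_sqrt.2 (by nlinarith)⟩, u, u1, b, mem_filter.2 ⟨mem_range.2
        (Nat.lt_succ_of_le ((Nat.le_div_iff_mul_le a0).2 (by nlinarith))), u2⟩, rfl⟩
    · exact ⟨b, mem_Icc.2 ⟨b1, Nat.le_sqrt.2 (by nlinarith)⟩, v, v1, a, mem_filter.2 ⟨mem_range.2
        (Nat.lt_succ_of_le ((Nat.le_div_iff_mul_le b1).2 (by omega))), v2⟩, by rw [mul_comm]⟩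
  have c2 : ∀ s ∈ Icc 1 x.sqrt, ∀ u ∈ Icc 1 L,
      (#(S s u) : ℝ) ≤ (x * (1 / s) + 1) / G + 2 * D ^ 4 := by
    intro s hs u hu
    obtain ⟨s1, s2⟩ := mem_Icc.1 hs
    obtain ⟨P, p1, p2, p3⟩ := hg u (by have := mem_Icc.1 hu; omega)
    have h1 : N ≤ #{q ∈ P | ¬ q ∣ s} := by
      have e1 := card_filter_add_card_filter_not (s := P) (fun q => q ∣ s)
      have e2 : #{q ∈ P | q ∣ s} ≤ #s.primeFactors := card_le_card fun q hq =>
        Nat.mem_primeFactors.2 ⟨(hQ q (p1 (mem_filter.1 hq).1)).1, (mem_filter.1 hq).2, by omega⟩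
      have e3 : #s.primeFactors ≤ Nat.log 2 x := Nat.le_log_of_pow_le one_lt_two
        ((pow_card_le_prod _ id 2 fun q hq => (Nat.prime_of_mem_primeFactors hq).two_le).trans
          ((Nat.le_of_dvd s1 (Nat.prod_primeFactors_dvd s)).trans (s2.trans x.sqrt_le_self)))
      omega
    refine (sift (P := {q ∈ P | ¬ q ∣ s}) (fun q hq => (hQ q (p1 (mem_filter.1 hq).1)).1)
      (fun q hq => (hQ q (p1 (mem_filter.1 hq).1)).2.2.2) hD hk (EE u s)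
      (fun q a => by simp [EE]) (fun q hq => ?_) G0 (hG.trans ?_) (x / s + 1) (S s u)
      fun t ht => ⟨mem_range.1 (mem_filter.1 ht).1, fun q hq =>
        (mem_filter.1 ht).2 q (p1 (mem_filter.1 hq).1) (mem_filter.1 hq).2⟩).trans ?_
    · obtain ⟨q1, q2⟩ := mem_filter.1 hq
      have : Fact q.Prime := ⟨(hQ q (p1 q1)).1⟩
      rw [dens q2]
      exact p3 q q1 _ _ (neg_ne_zero.2 (pow_ne_zero _ (by rwa [Ne, ZMod.natCast_eq_zero_iff])))
    · gcongr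
    · push_cast
      gcongr
      rw [mul_one_div]
      exact Nat.cast_div_le
  have c3 : (#B : ℝ) ≤ z + 1 + ∑ s ∈ Icc 1 x.sqrt, ∑ u ∈ Icc 1 L, (#(S s u) : ℝ) := by
    have := (card_le_card c1).trans ((card_union_le _ _).trans (add_le_add_right
      (card_biUnion_le.trans (sum_le_sum fun s _ => card_biUnion_le.trans
        (sum_le_sum fun u _ => card_image_le))) _))
    rw [card_range] at this
    exact_mod_cast this
  refine c3.trans (add_le_add_right ((sum_le_sum fun s hs => sum_le_sum (c2 s hs)).trans ?_) _)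
  simp only [sum_const, Nat.card_Icc, add_tsub_cancel_right, nsmul_eq_mul, ← mul_sum,
    sum_add_distrib, ← sum_div, mul_one]
  have h1 : (x.sqrt : ℝ) ≤ √x := Real.nat_sqrt_le_real_sqrt
  have h2 : Real.log x.sqrt ≤ Real.log x := by
    rcases x.eq_zero_or_pos with rfl | h
    · simp
    · exact Real.log_le_log (by exact_mod_cast Nat.sqrt_pos.2 h) (by exact_mod_cast x.sqrt_le_self)
  have h3 := harm x.sqrt
  gcongr
  linarith

end Pool.Agent.P.MP_74dd9d_nt.PS
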