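import Pool.Agent.P.MP_74dd9d_nt.PS.Core

/-! The choice of the parameters and the power saving. -/

namespace Pool.Agent.P.MP_74dd9d_nt.PS

open Finset Filter Topology Real

lemma ev_exp (K : ℝ) {ε : ℝ} (hε : 0 < ε) : ∀ᶠ t : ℝ in atTop, K * t ^ 2 ≤ exp (ε * t) := by
  filter_upwards [eventually_ge_atTop (6 * K / ε ^ 3), eventually_ge_atTop 0] with t h1 h2
  refine le_trans ?_ (Real.pow_div_factorial_le_exp _ (by positivity) 3)
  rw [div_le_iff₀ (by positivity)] at h1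
  have := mul_le_mul_of_nonneg_right h1 (sq_nonneg t)
  norm_num [Nat.factorial]
  linarith

lemma pow_le_choose (M k : ℕ) : (M : ℝ) ^ k ≤ (k * M + k).choose k := by
  refine le_trans ?_ (Nat.pow_le_choose k _)
  have h1 : (k.factorial : ℝ) ≤ k ^ k := by exact_mod_cast k.factorial_le_pow
  rw [le_div_iff₀ (by positivity)]
  calc (M : ℝ) ^ k * k.factorial ≤ M ^ k * k ^ k := by gcongr
    _ = ((k * M : ℕ) : ℝ) ^ k := by push_cast; ring
    _ ≤ _ := by gcongr; omega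

theorem saving : ∃ η : ℝ, 0 < η ∧ ∀ᶠ x : ℕ in atTop, ∃ C : Finset ℕ,
    (∀ q ∈ C, (q : ℝ) ≤ log x ^ 2) ∧ (Set.ncard {c : ℕ | c ≤ x ∧ c.Prime ∧
      ¬ ∀ b : ℕ, 1 ≤ b → b ∣ c - 1 → ∃ l, IsQRC c b l C} : ℝ) ≤ (x : ℝ) ^ (1 - η) := by
  obtain ⟨κ, k0, k1, hg⟩ := good
  refine ⟨κ / 256, by positivity, ?_⟩
  have hll := tendsto_log_atTop.comp hlog
  have hz : Tendsto (fun x : ℕ => ⌊exp ((1 + κ) * log (log x))⌋₊) atTop atTop :=
    tendsto_nat_floor_atTop.comp (tendsto_exp_atTop.comp (hll.const_mul_atTop (by linarith)))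
  filter_upwards [hz.eventually hg, hll.eventually (ev_exp 165 (half_pos k0)),
    hll.eventually (ev_exp (1024 / κ) (pow_pos k0 2)), hll.eventually (ev_exp 64 one_pos),
    hll.eventually_ge_atTop 1, hll.eventually_ge_atTop (1 / κ), hlog.eventually_ge_atTop 1,
    hlog.eventually (ev_exp 7 (show 0 < κ / 512 by positivity)), eventually_gt_atTop 0]
    with x h1 h2 h3 h4 h5 h6 h7 h8 x0
  simp only [Function.comp] at h2 h3 h4 h5 h6
  have hx : (x : ℝ) = exp (log x) := (exp_log (by exact_mod_cast x0)).symm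
  have hX : log x = exp (log (log x)) := (exp_log (by linarith)).symm
  have hl2 : (Nat.log 2 x : ℝ) ≤ 2 * log x := by
    have e1 : ((2 : ℝ) ^ Nat.log 2 x) ≤ x := by exact_mod_cast Nat.pow_log_le_self 2 x0.ne'
    have e2 := log_le_log (by positivity) e1
    rw [log_pow] at e2
    nlinarith [log_two_gt_d9, Nat.cast_nonneg (α := ℝ) (Nat.log 2 x)]
  set X := log x
  set t := log X
  rw [div_le_iff₀ k0] at h6
  have z1 : (⌊exp ((1 + κ) * t)⌋₊ : ℝ) ≤ exp ((1 + κ) * t) := Nat.floor_le (exp_pos _).le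
  have z2 := Nat.lt_floor_add_one (exp ((1 + κ) * t))
  set z := ⌊exp ((1 + κ) * t)⌋₊
  have e1 : exp ((1 + κ) * t) = X * exp (κ / 2 * t) ^ 2 := by
    rw [← exp_nat_mul, hX, ← exp_add]; congr 1; push_cast; ring
  have w1 : 64 * t + 101 ≤ exp (κ / 2 * t) := by nlinarith
  set w := exp (κ / 2 * t) with hw
  have w2 : 100 * w + 2 + 64 * t ≤ w ^ 2 := by nlinarith
  have w3 : X * 2 ≤ X * w ^ 2 := by gcongr; linarith
  have z3 : X * w ^ 2 / 2 ≤ z := by linarith
  have z4 : X ≤ z := by linarith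
  have z0 : (0 : ℝ) < z := by linarith
  have Z1 : log z ≤ (1 + κ) * t := by rw [log_le_iff_le_exp z0]; exact z1
  have Z2 : t ≤ log z := log_le_log (by linarith) z4
  have hz : (z : ℝ) = exp (log z) := (exp_log z0).symm
  set Z := log z
  have Z3 : Z ≤ 2 * t := by nlinarith
  have Z0 : 0 < Z := by linarith
  have y1 : (⌊exp ((1 - κ) * Z)⌋₊ : ℝ) ≤ exp ((1 - κ) * Z) := Nat.floor_le (exp_pos _).le
  set y := ⌊exp ((1 - κ) * Z)⌋₊
  have n1 : (⌊X / (16 * Z)⌋₊ : ℝ) ≤ X / (16 * Z) := Nat.floor_le (by positivity)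
  have n2 := Nat.lt_floor_add_one (X / (16 * Z))
  set k := ⌊X / (16 * Z)⌋₊
  have m1 := Nat.le_ceil (100 * w)
  have m2 := Nat.ceil_lt_add_one (show 0 ≤ 100 * w by positivity)
  set M := ⌈100 * w⌉₊
  have zX : (z : ℝ) ≤ X ^ 2 := by
    rw [hX, ← exp_nat_mul]
    exact z1.trans (exp_le_exp.2 (by push_cast; nlinarith))
  have hQ : ∀ q ∈ QQ y z, q.Prime ∧ 3 ≤ q ∧ q - 1 ∣ LL y z ∧ q ≤ z := fun q hq => by
    obtain ⟨a1, a2, a3, a4⟩ := mem_filter.1 hq
    exact ⟨a2, by omega, a4, Nat.lt_succ_iff.1 (mem_range.1 a1)⟩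
  refine ⟨QQ y z, fun q hq => le_trans (by exact_mod_cast (hQ q hq).2.2.2) zX, ?_⟩
  have hfin : {c : ℕ | c ≤ x ∧ c.Prime ∧ ¬ ∀ b : ℕ, 1 ≤ b → b ∣ c - 1 →
      ∃ l, IsQRC c b l (QQ y z)}.Finite := (Set.finite_le_nat x).subset fun c hc => hc.1
  rw [Set.ncard_eq_toFinset_card _ hfin]
  rw [le_div_iff₀ (by positivity)] at n1
  rw [div_lt_iff₀ (by positivity)] at n2
  refine (core (x := x) (z := z) (k := k) (N := k * M + k) (LL_pos y z) hQ (fun u hu => ?_)
    (D := exp (X / 16)) (G := exp (κ / 128 * X)) (one_le_exp (by positivity)) ?_ (exp_pos _) ?_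
    hfin.toFinset fun c hc => hfin.mem_toFinset.1 hc).trans ?_
  · obtain ⟨P, p1, p2, p3⟩ := h1 u hu
    refine ⟨P, p1, ?_, p3⟩
    have : ((k * M + k + Nat.log 2 x : ℕ) : ℝ) ≤ 1 / 8 * (z / Z) := by
      push_cast
      rw [← mul_div_assoc, le_div_iff₀ Z0]
      have a1 : (k : ℝ) * (16 * Z) * (M + 1) ≤ X * (100 * w + 2) :=
        mul_le_mul n1 (by linarith) (by positivity) (by linarith)
      have a2 : (Nat.log 2 x : ℝ) * Z ≤ 2 * X * (2 * t) := by gcongr
      have a3 : X * (100 * w + 2 + 64 * t) ≤ X * w ^ 2 := by gcongr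
      linarith
    exact_mod_cast this.trans p2
  · rw [hz, ← exp_nat_mul, exp_le_exp]
    linarith
  · calc exp (κ / 128 * X) ≤ w ^ k := by
          rw [hw, ← exp_nat_mul, exp_le_exp]
          have a1 : X ≤ (k + 1) * (32 * t) := n2.le.trans
            (mul_le_mul_of_nonneg_left (by linarith) (by positivity))
          have a2 : 64 * t ≤ X := by rw [one_mul, ← hX] at h4; nlinarith
          have a3 : κ * X ≤ κ * (64 * (k * t)) := by gcongr; linarith
          linarith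
      _ ≤ (M * (1 / 100)) ^ k := by gcongr; linarith
      _ ≤ _ := by rw [mul_pow]; gcongr; exact pow_le_choose M k
  have hL : (LL y z : ℝ) ≤ exp (κ / 512 * X) := by
    refine (Nat.cast_le.2 (LL_le y (by exact_mod_cast z0.ne'))).trans ?_
    rw [Nat.cast_pow, hz, ← exp_nat_mul, exp_le_exp]
    have a1 : (y : ℝ) * exp (κ ^ 2 * t) ≤ X := by
      rw [hX]
      refine (mul_le_mul_of_nonneg_right y1 (exp_pos _).le).trans ?_
      rw [← exp_add, exp_le_exp]
      nlinarith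
    have a2 : (y : ℝ) * (1024 / κ * t ^ 2) ≤ X := le_trans (by gcongr) a1
    rw [div_mul_eq_mul_div, ← mul_div_assoc, div_le_iff₀ k0] at a2
    have a3 : (y : ℝ) * Z ≤ y * (2 * t ^ 2) := by gcongr; nlinarith
    linarith
  have s1 : √x = exp (X / 2) := by rw [hx, exp_half]
  have s2 : exp (X / 2) ≤ exp X := exp_le_exp.2 (by linarith)
  have s3 : exp X / exp (κ / 128 * X) = exp ((1 - κ / 128) * X) := by
    rw [← exp_sub]; congr 1; ring
  have s4 : exp (X / 2) * exp (X / 16) ^ 4 ≤ exp ((1 - κ / 128) * X) := by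
    rw [← exp_nat_mul, ← exp_add, exp_le_exp]; push_cast; nlinarith
  have s5 : (x * (1 + X) + √x) / exp (κ / 128 * X) ≤ (2 + X) * exp ((1 - κ / 128) * X) := by
    rw [← s3, ← mul_div_assoc, s1, ← hx]
    rw [← hx] at s2
    gcongr
    linarith
  have s6 : (x : ℝ) ^ (1 - κ / 256) =
      exp (κ / 512 * X) * (exp (κ / 512 * X) * exp ((1 - κ / 128) * X)) := by
    rw [rpow_def_of_pos (by exact_mod_cast x0), ← exp_add, ← exp_add]; congr 1; ring
  have s7 : 1 ≤ exp (κ / 512 * X) * exp ((1 - κ / 128) * X) :=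
    one_le_mul_of_one_le_of_one_le (one_le_exp (by positivity)) (one_le_exp (by nlinarith))
  have s8 : (LL y z : ℝ) * ((x * (1 + X) + √x) / exp (κ / 128 * X) + √x * (2 * exp (X / 16) ^ 4))
      ≤ exp (κ / 512 * X) * ((4 + X) * exp ((1 - κ / 128) * X)) := by
    gcongr
    rw [s1] at s5 ⊢
    linarith
  rw [s6]
  generalize exp (κ / 512 * X) = A at *
  generalize exp ((1 - κ / 128) * X) = B at *
  have s9 : (X ^ 2 + 1 + (4 + X)) * (A * B) ≤ A * (A * B) := by gcongr; nlinarith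
  nlinarith

end Pool.Agent.P.MP_74dd9d_nt.PS
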