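import Mathlib

/-! Jacobi sums and the duplication formula. -/

namespace Pool.Agent.P.MP_74dd9d_nt.PS

open Finset

variable {q : ℕ} [Fact q.Prime]

/-- the quadratic character with complex values -/
noncomputable def chi (q : ℕ) [Fact q.Prime] : DirichletCharacter ℂ q :=
  (quadraticChar (ZMod q)).ringHomComp (Int.castRingHom ℂ)

lemma chi_apply (x : ZMod q) : chi q x = (quadraticChar (ZMod q) x : ℂ) := rfl

lemma chi_sq : chi q ^ 2 = 1 := ((quadraticChar_isQuadratic (ZMod q)).comp _).sq_eq_one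

lemma chi_ne (hq : q ≠ 2) : chi q ≠ 1 :=
  (MulChar.ringHomComp_ne_one_iff (RingHom.injective_int _)).2
    (quadraticChar_ne_one (by rwa [ZMod.ringChar_zmod_n]))

lemma sum_sq (hq : q ≠ 2) (G : ZMod q → ℂ) : ∑ u, G (u ^ 2) = ∑ v, (chi q v + 1) * G v := by
  rw [← sum_fiberwise (s := univ) (g := fun u : ZMod q => u ^ 2)]
  refine sum_congr rfl fun v _ => ?_
  rw [sum_congr rfl (g := fun _ => G v) fun u hu => by rw [(mem_filter.1 hu).2], sum_const,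
    nsmul_eq_mul, chi_apply]
  have := quadraticChar_card_sqrts (F := ZMod q) (by rwa [ZMod.ringChar_zmod_n]) v
  rw [Set.toFinset_ofPred] at this
  congr 1
  exact_mod_cast this

lemma dup (hq : q ≠ 2) {ρ : DirichletCharacter ℂ q} (h : ρ ≠ 1) :
    ρ 4 * jacobiSum ρ ρ = jacobiSum ρ (chi q) := by
  have h2 : (2 : ZMod q) ≠ 0 := Ring.two_ne_zero (by rwa [ZMod.ringChar_zmod_n])
  have e1 : ρ 4 * jacobiSum ρ ρ = ∑ u : ZMod q, ρ (1 - u ^ 2) := by
    rw [jacobiSum, mul_sum,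
      ← Equiv.sum_comp ((Equiv.mulLeft₀ 2 h2).trans (Equiv.subLeft 1)) fun u => ρ (1 - u ^ 2)]
    refine sum_congr rfl fun x _ => ?_
    rw [← map_mul, ← map_mul]
    congr 1
    simp only [Equiv.trans_apply, Equiv.mulLeft₀_apply, Equiv.subLeft_apply]
    ring
  have e2 : ∑ v : ZMod q, ρ (1 - v) = 0 := by
    rw [← MulChar.sum_eq_zero_of_ne_one h]
    exact Equiv.sum_comp (Equiv.subLeft 1) ρ
  rw [e1, sum_sq hq fun v => ρ (1 - v), jacobiSum_comm, jacobiSum]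
  simp only [add_mul, one_mul, sum_add_distrib, e2, add_zero]

lemma ne_of_sq {ρ : DirichletCharacter ℂ q} (h : ρ ^ 2 ≠ 1) : ρ ≠ 1 ∧ ρ * chi q ≠ 1 :=
  ⟨fun e => h (by rw [e, one_pow]), fun e => h (by
    have := congrArg (· ^ 2) e
    simpa only [mul_pow, chi_sq, mul_one, one_pow] using this)⟩

/-- the product relation that follows from the duplication formula of Hasse and Davenport -/
lemma rel (hq : q ≠ 2) {φ ψ : DirichletCharacter ℂ q} (h1 : ψ ^ 2 ≠ 1) (h2 : φ ^ 2 ≠ 1)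
    (h3 : (φ * ψ) ^ 2 ≠ 1) : jacobiSum φ ψ * jacobiSum φ (ψ * chi q) =
      jacobiSum (φ ^ 2) (ψ ^ 2) * jacobiSum φ (chi q) := by
  set e := ZMod.stdAddChar (N := q)
  have G0 : ∀ {ρ : DirichletCharacter ℂ q}, ρ ≠ 1 → gaussSum ρ e ≠ 0 := fun h =>
    gaussSum_ne_zero_of_nontrivial (by rw [ZMod.card]; exact_mod_cast (Fact.out : q.Prime).ne_zero)
      h (ZMod.isPrimitive_stdAddChar q)
  have A : ∀ {ρ : DirichletCharacter ℂ q}, ρ ^ 2 ≠ 1 →
      gaussSum (ρ ^ 2) e * jacobiSum ρ (chi q) = ρ 4 * gaussSum ρ e ^ 2 := fun {ρ} h => by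
    have := jacobiSum_mul_nontrivial (χ := ρ) (φ := ρ) (by rwa [← sq]) e
    rw [← dup hq (ne_of_sq h).1, sq ρ]
    linear_combination ρ 4 * this
  have B : ∀ {ρ : DirichletCharacter ℂ q}, ρ ^ 2 ≠ 1 → gaussSum (ρ ^ 2) e * gaussSum (chi q) e =
      ρ 4 * gaussSum ρ e * gaussSum (ρ * chi q) e := fun {ρ} h => by
    have b1 := jacobiSum_mul_nontrivial (ne_of_sq h).2 e
    refine mul_left_cancel₀ (G0 (ne_of_sq h).1) ?_
    linear_combination gaussSum (ρ * chi q) e * A h - gaussSum (ρ ^ 2) e * b1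
  have a1 := jacobiSum_mul_nontrivial (ne_of_sq h3).1 e
  have a2 := jacobiSum_mul_nontrivial (χ := φ) (φ := ψ * chi q)
    (by rw [← mul_assoc]; exact (ne_of_sq h3).2) e
  have a3 := jacobiSum_mul_nontrivial (χ := φ ^ 2) (φ := ψ ^ 2) (by rwa [← mul_pow]) e
  have a4 := A h2
  have a5 := B h1
  have a6 := B h3
  rw [← mul_pow] at a3
  rw [mul_assoc φ, MulChar.mul_apply] at a6
  refine mul_left_cancel₀ (mul_ne_zero (G0 h3) (G0 (chi_ne hq))) ?_
  linear_combination (jacobiSum φ ψ * jacobiSum φ (ψ * chi q)) * a6 +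
    φ 4 * ψ 4 * gaussSum (φ * (ψ * chi q)) e * jacobiSum φ (ψ * chi q) * a1 +
    φ 4 * ψ 4 * gaussSum φ e * gaussSum ψ e * a2 - φ 4 * gaussSum φ e ^ 2 * a5 -
    gaussSum (chi q) e * jacobiSum φ (chi q) * a3 - gaussSum (chi q) e * gaussSum (ψ ^ 2) e * a4

lemma norm_jac {φ ψ : DirichletCharacter ℂ q} (h1 : φ ≠ 1) (h2 : ψ ≠ 1) (h3 : φ * ψ ≠ 1) :
    ‖jacobiSum φ ψ‖ ^ 2 = q := by
  have h := jacobiSum_mul_jacobiSum_inv (F := ZMod q) (F' := ℂ) (by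
    rw [ZMod.ringChar_zmod_n, ringChar.eq_zero]; exact (Fact.out : q.Prime).ne_zero.symm) h1 h2 h3
  have e : jacobiSum φ⁻¹ ψ⁻¹ = star (jacobiSum φ ψ) := by
    simp only [jacobiSum, star_sum, star_mul', MulChar.star_apply']
  rw [e, ZMod.card, RCLike.star_def, Complex.mul_conj, Complex.normSq_eq_norm_sq] at h
  exact_mod_cast h

lemma norm_jac_deg {φ ψ : DirichletCharacter ℂ q} (h2 : ψ ≠ 1) (h : φ = 1 ∨ φ * ψ = 1) :
    ‖jacobiSum φ ψ‖ ^ 2 ≤ 1 := by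
  refine pow_le_one₀ (norm_nonneg _) ?_
  rcases h with rfl | h
  · rw [jacobiSum_one_nontrivial h2]; simp
  · rw [jacobiSum_comm, eq_inv_of_mul_eq_one_left h, jacobiSum_nontrivial_inv h2, norm_neg]
    exact ψ.norm_le_one _

lemma norm_jac_le {φ ψ : DirichletCharacter ℂ q} (h2 : ψ ≠ 1) : ‖jacobiSum φ ψ‖ ^ 2 ≤ q := by
  by_cases h : φ = 1 ∨ φ * ψ = 1
  · exact (norm_jac_deg h2 h).trans (by exact_mod_cast (Fact.out : q.Prime).one_le)
  · push Not at h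
    exact (norm_jac h.1 h2 h.2).le

lemma cplx {v1 v2 v3 w : ℂ} (h1 : ‖v1‖ ≤ 1) (h2 : ‖v2‖ ≤ 1) (h3 : ‖v3‖ = 1) (e : v1 * v2 = v3 * w) :
    1 + w.re ≤ 1 / 2 + 3 * ((1 + v1.re) + (1 + v2.re) + (1 + v3.re)) := by
  have A : ∀ v : ℂ, ‖v‖ ≤ 1 → ‖1 + v‖ ≤ 1 / 6 + 3 * (1 + v.re) := fun v hv => by
    have a1 : ‖1 + v‖ ^ 2 = 1 + 2 * v.re + ‖v‖ ^ 2 := by
      simp only [Complex.sq_norm, Complex.normSq_apply, Complex.add_re, Complex.add_im,
        Complex.one_re, Complex.one_im]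
      ring
    have a2 : ‖v‖ ^ 2 ≤ 1 := pow_le_one₀ (norm_nonneg _) hv
    nlinarith [sq_nonneg (‖1 + v‖ - 1 / 3)]
  have b1 : 1 + w.re ≤ ‖1 + w‖ := by simpa using Complex.re_le_norm (1 + w)
  have b2 : ‖1 + w‖ = ‖(1 + v3) + (1 + v1) * v2 - (1 + v2)‖ := by
    rw [← one_mul ‖1 + w‖, ← h3, ← norm_mul]
    congr 1
    linear_combination -e
  have b3 := norm_sub_le ((1 + v3) + (1 + v1) * v2) (1 + v2)
  have b4 := norm_add_le (1 + v3) ((1 + v1) * v2)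
  have b5 : ‖(1 + v1) * v2‖ ≤ ‖1 + v1‖ := by
    rw [norm_mul]; exact mul_le_of_le_one_right (norm_nonneg _) h2
  linarith [A v1 h1, A v2 h2, A v3 h3.le]

/-- normalised square of a Jacobi sum -/
noncomputable def vv (β : ZMod q) (φ ψ : DirichletCharacter ℂ q) : ℂ :=
  ψ β * jacobiSum φ ψ ^ 2 / q

lemma norm_vv {β : ZMod q} (hβ : β ≠ 0) (φ ψ : DirichletCharacter ℂ q) :
    ‖vv β φ ψ‖ = ‖jacobiSum φ ψ‖ ^ 2 / q := by
  have := ψ.unit_norm_eq_one (Units.mk0 β hβ)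
  rw [Units.val_mk0] at this
  rw [vv, norm_div, norm_mul, this, one_mul, norm_pow, Complex.norm_natCast]

lemma norm_vv_le {β : ZMod q} (hβ : β ≠ 0) (φ : DirichletCharacter ℂ q)
    {ψ : DirichletCharacter ℂ q} (h : ψ ≠ 1) : ‖vv β φ ψ‖ ≤ 1 := by
  rw [norm_vv hβ, div_le_one (by exact_mod_cast (Fact.out : q.Prime).pos)]
  exact norm_jac_le h

lemma key (hq : q ≠ 2) {β : ZMod q} (hβ : β ≠ 0) (φ : DirichletCharacter ℂ q)
    {ψ : DirichletCharacter ℂ q} (h : ψ ^ 2 ≠ 1) :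
    1 + (vv β φ (chi q)).re ≤ 1 / 2 + 3 * ((1 + (vv β φ ψ).re) + (1 + (vv β φ (ψ * chi q)).re) +
      (1 + (vv β (φ ^ 2) (ψ ^ 2)).re)) := by
  have hq0 : (2 : ℝ) ≤ q := by exact_mod_cast (Fact.out : q.Prime).two_le
  have n1 := norm_vv_le hβ φ (ne_of_sq h).1
  have n2 := norm_vv_le hβ φ (ne_of_sq h).2
  by_cases hd : φ ^ 2 = 1 ∨ φ ^ 2 * ψ ^ 2 = 1
  · have a1 : ‖vv β (φ ^ 2) (ψ ^ 2)‖ ≤ 1 / 2 := by
      rw [norm_vv hβ]
      exact div_le_div₀ zero_le_one (norm_jac_deg h hd) two_pos hq0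
    have a2 := (Complex.re_le_norm _).trans (norm_vv_le hβ φ (chi_ne hq))
    have a3 := abs_le.1 ((Complex.abs_re_le_norm _).trans a1)
    have a4 := abs_le.1 ((Complex.abs_re_le_norm _).trans n1)
    have a5 := abs_le.1 ((Complex.abs_re_le_norm _).trans n2)
    linarith [a3.1, a4.1, a5.1]
  · push Not at hd
    refine cplx n1 n2 ?_ ?_
    · rw [norm_vv hβ, norm_jac hd.1 h hd.2, div_self (by linarith)]
    · have := rel hq h hd.1 (by rw [mul_pow]; exact hd.2)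
      simp only [vv, MulChar.mul_apply, MulChar.pow_apply' _ two_ne_zero]
      rw [div_mul_div_comm, div_mul_div_comm]
      congr 1
      linear_combination ψ β ^ 2 * chi q β * (jacobiSum φ ψ * jacobiSum φ (ψ * chi q) +
        jacobiSum (φ ^ 2) (ψ ^ 2) * jacobiSum φ (chi q)) * this

open Classical in
lemma card_sq (ρ : DirichletCharacter ℂ q) : #{ψ : DirichletCharacter ℂ q | ψ ^ 2 = ρ} ≤ 2 := by
  have : IsCyclic (DirichletCharacter ℂ q) :=
    (DirichletCharacter.mulEquiv_units ℂ q).some.isCyclic.2 inferInstance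
  rcases ({ψ | ψ ^ 2 = ρ} : Finset (DirichletCharacter ℂ q)).eq_empty_or_nonempty with e | ⟨τ, hτ⟩
  · simp [e]
  · refine le_trans (card_le_card_of_injOn (fun ψ => ψ / τ) (fun ψ hψ => ?_)
      fun a _ b _ e => div_left_injective e) (IsCyclic.card_pow_eq_one_le two_pos)
    simp only [coe_filter, mem_univ, true_and, Set.mem_ofPred_eq, mem_filter] at hψ hτ ⊢
    rw [div_pow, hψ, hτ, div_self']

end Pool.Agent.P.MP_74dd9d_nt.PS
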