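import Pool.Agent.P.MP_74dd9d_nt.PS.Low
import Pool.Agent.P.MP_74dd9d_nt.Chars

/-! The local lemma: a positive proportion of residue classes is covered, for every exponent
outside a narrow window. -/

namespace Pool.Agent.P.MP_74dd9d_nt.PS

open Finset Polynomial

variable {q : ℕ} [Fact q.Prime]

/-- the discriminant form -/
def lam {R : Type*} [CommRing R] (c y : R) : R := (c - (1 + y)) ^ 2 - 4 * y

/-- the covered classes -/
def Ex (u : ℕ) (β c : ZMod q) : Prop := c ≠ 0 ∧ IsSquare (lam c (β / c ^ u))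

/-- their number -/
noncomputable def TT (u : ℕ) (β : ZMod q) : ℝ := ∑ c : ZMod q, ind (Ex u β c)

lemma NN_le {a : ℕ} (ha : a ≠ 0) {β : ZMod q} (hβ : β ≠ 0) : (NN a β : ℝ) ≤ 2 * TT a β := by
  classical
  have h1 : TT a β = #{c : ZMod q | Ex a β c} := by
    rw [TT, card_filter]
    push_cast
    exact sum_congr rfl fun c _ => by unfold ind; congr
  have h0 : ∀ z : ZMod q × ZMod q, (z.1 * z.2) ^ a * ((1 - z.1) * (1 - z.2)) = β →
      z.1 * z.2 ≠ 0 := fun z hz e => hβ (by rw [← hz, e, zero_pow ha, zero_mul])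
  rw [h1]
  norm_cast
  refine card_le_mul_card_image_of_maps_to (f := fun z => z.1 * z.2) (fun z hz => ?_) 2
    fun c _ => ?_
  · have hz := (mem_filter.1 hz).2
    refine mem_filter.2 ⟨mem_univ _, h0 z hz, z.1 - z.2, ?_⟩
    rw [← hz, mul_div_cancel_left₀ _ (pow_ne_zero _ (h0 z hz)), lam]
    ring
  · rcases eq_empty_or_nonempty (filter (fun z : ZMod q × ZMod q => z.1 * z.2 = c) (filter
      (fun z => (z.1 * z.2) ^ a * ((1 - z.1) * (1 - z.2)) = β) univ)) with e | ⟨w, hw⟩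
    · simp [e]
    refine le_trans (card_le_card fun z hz => ?_) (card_le_two (a := w) (b := w.swap))
    simp only [mem_filter, mem_univ, true_and] at hw hz
    have e1 : z.1 * z.2 = w.1 * w.2 := hz.2.trans hw.2.symm
    have e2 := mul_left_cancel₀ (pow_ne_zero a (h0 w hw.1)) ((e1 ▸ hz.1).trans hw.1.symm)
    have e3 : (z.1 - w.1) * (z.1 - w.2) = 0 := by linear_combination (z.1 - 1) * e1 - z.1 * e2
    rw [mem_insert, mem_singleton, Prod.ext_iff, Prod.ext_iff]
    rcases mul_eq_zero.1 e3 with e | e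
    · exact Or.inl ⟨sub_eq_zero.1 e, by linear_combination e1 - e2 - e⟩
    · exact Or.inr ⟨sub_eq_zero.1 e, by simp only [Prod.snd_swap]; linear_combination e1 - e2 - e⟩

lemma card_roots_le (a : ℕ) : #{ζ : ZMod q | ζ ^ a = 1 ∧ ζ ≠ 0} ≤ a.gcd (q - 1) := by
  have hq := (Fact.out : q.Prime).two_le
  have h0 : 0 < a.gcd (q - 1) := Nat.gcd_pos_of_pos_right _ (by omega)
  refine le_trans (card_le_card fun ζ hζ => ?_) ((Multiset.toFinset_card_le _).trans
    (card_nthRoots (a.gcd (q - 1)) (1 : ZMod q)))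
  obtain ⟨h1, h2⟩ := (mem_filter.1 hζ).2
  rw [Multiset.mem_toFinset, mem_nthRoots h0]
  exact pow_gcd_eq_one.2 ⟨h1, ZMod.pow_card_sub_one_eq_one h2⟩

lemma coset_sum (hq : q ≠ 2) {k : ℕ} (hk : 0 < k) (hkq : k < q) {t y : ZMod q} (ht : t ≠ 0)
    (hy : y ≠ 0) :
    -(24 * k * √q) ≤ ∑ x : ZMod q, (quadraticChar (ZMod q) (lam (t * x ^ k) y) : ℝ) := by
  set K := AlgebraicClosure (ZMod q)
  set φ := algebraMap (ZMod q) K
  have h2 : (2 : K) ≠ 0 := by
    rw [← map_ofNat φ 2]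
    exact (map_ne_zero φ).2 (Ring.two_ne_zero (by rwa [ZMod.ringChar_zmod_n]))
  have hk' : (k : K) ≠ 0 := by
    rw [← map_natCast φ k]
    exact (map_ne_zero φ).2 fun e =>
      absurd (Nat.le_of_dvd hk ((ZMod.natCast_eq_zero_iff k q).1 e)) (by omega)
  obtain ⟨σ, h3, h4⟩ : ∃ σ : K, σ ^ 2 = φ y ∧ 1 + σ ≠ 0 := by
    obtain ⟨σ, h⟩ := IsAlgClosed.exists_pow_nat_eq (φ y) two_pos
    by_cases e : 1 + σ = 0
    · exact ⟨-σ, by rw [neg_sq, h], fun e' => h2 (by linear_combination e + e')⟩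
    · exact ⟨σ, h, e⟩
  have ht' : φ t ≠ 0 := (map_ne_zero φ).2 ht
  have h5 : σ ≠ 0 := by rintro rfl; exact (map_ne_zero φ).2 hy (by rw [← h3]; simp)
  obtain ⟨ξ, h6⟩ := IsAlgClosed.exists_pow_nat_eq ((1 + σ) ^ 2 / φ t) hk
  have h7 : ξ ≠ 0 := by
    rintro rfl
    rw [zero_pow hk.ne'] at h6
    exact div_ne_zero (pow_ne_zero 2 h4) ht' h6.symm
  have h8 : φ t * ξ ^ k - (1 + φ y) = 2 * σ := by
    rw [h6, ← h3, mul_div_cancel₀ _ ht']; ring
  have h9 := weil hq (f := lam (C t * X ^ k) (C y)) (m := 2 * k) (by omega)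
    (by unfold lam; compute_degree) (not_sq_of_simple (K := K) (ξ := ξ) ?_ ?_)
  · simp only [lam, eval_sub, eval_pow, eval_mul, eval_C, eval_X, eval_add, eval_one,
      eval_ofNat] at h9
    have := (abs_le.1 h9).1
    push_cast at this
    unfold lam
    linarith
  · simp only [lam, map_sub, map_pow, map_mul, aeval_C, aeval_X, map_add, map_one, map_ofNat]
    rw [h8, ← h3]
    ring
  · simp only [lam, derivative_pow, derivative_mul, derivative_C, derivative_X, derivative_one,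
      derivative_ofNat, map_sub, map_pow, map_mul, aeval_C, aeval_X, map_add, map_one,
      map_natCast, zero_mul, mul_zero, add_zero, zero_add, sub_zero, mul_one]
    rw [h8]
    simp [h2, h5, ht, hk', h7]

lemma coset (hq : q ≠ 2) {u d k : ℕ} (hd : d ∣ u) (hk : d * k = q - 1) {β : ZMod q} (hβ : β ≠ 0) :
    (q : ℝ) - 2 - 24 * k * √q ≤ 2 * TT u β := by
  have hq2 := (Fact.out : q.Prime).two_le
  have hk0 : 0 < k := Nat.pos_of_ne_zero (by rintro rfl; omega)
  have hkq : k < q := by have := Nat.le_of_dvd (by omega) (Dvd.intro_left d hk); omega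
  have hc : (#(univ.erase (0 : ZMod q)) : ℝ) = q - 1 := by
    rw [card_erase_of_mem (mem_univ _), card_univ, ZMod.card, Nat.cast_sub (by omega), Nat.cast_one]
  have h1 : ∑ t ∈ univ.erase (0 : ZMod q), ∑ x ∈ univ.erase (0 : ZMod q),
      ind (Ex u β (t * x ^ k)) ≤ (q - 1) * TT u β := by
    rw [sum_comm, ← hc, ← nsmul_eq_mul]
    refine sum_le_card_nsmul _ _ _ fun x hx => ?_
    rw [TT, ← Equiv.sum_comp (Equiv.mulRight₀ (x ^ k) (pow_ne_zero _ (ne_of_mem_erase hx)))]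
    exact sum_le_sum_of_subset_of_nonneg (erase_subset _ _) fun _ _ _ => (ind_01 _).1
  have h2 : ∀ t ∈ univ.erase (0 : ZMod q), ((q : ℝ) - 2 - 24 * k * √q) / 2 ≤
      ∑ x ∈ univ.erase (0 : ZMod q), ind (Ex u β (t * x ^ k)) := by
    intro t ht
    have ht := ne_of_mem_erase ht
    have a1 := coset_sum hq hk0 hkq ht (div_ne_zero hβ (pow_ne_zero u ht))
    have a2 : ∑ x ∈ univ.erase (0 : ZMod q),
        ((quadraticChar (ZMod q) (lam (t * x ^ k) (β / t ^ u)) : ℝ) + 1) ≤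
        ∑ x ∈ univ.erase (0 : ZMod q), 2 * ind (Ex u β (t * x ^ k)) := by
      refine sum_le_sum fun x hx => (ind_sq_ge _).trans ?_
      have hx := ne_of_mem_erase hx
      obtain ⟨v, rfl⟩ := hd
      refine mul_le_mul_of_nonneg_left (ind_mono fun h => ⟨mul_ne_zero ht (pow_ne_zero _ hx), ?_⟩)
        zero_le_two
      rwa [mul_pow, ← pow_mul, ← mul_assoc, mul_comm k d, hk, pow_mul x,
        ZMod.pow_card_sub_one_eq_one hx, one_pow, mul_one]
    rw [← add_sum_erase _ _ (mem_univ 0)] at a1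
    have a3 : (quadraticChar (ZMod q) (lam (t * 0 ^ k) (β / t ^ u)) : ℝ) ≤ 1 := by
      exact_mod_cast chi_le_one _
    rw [sum_add_distrib, sum_const, nsmul_one, hc, ← mul_sum] at a2
    linarith
  have h3 := card_nsmul_le_sum _ _ _ h2
  rw [nsmul_eq_mul, hc] at h3
  have h4 : (2 : ℝ) ≤ q := by exact_mod_cast hq2
  have := le_of_mul_le_mul_left (h3.trans h1) (by linarith)
  linarith

lemma TT_symm {u v : ℕ} (h : q - 1 ∣ u + v + 1) (β : ZMod q) : TT v β ≤ TT u β := by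
  rw [TT, TT, ← Equiv.sum_comp (Equiv.inv (ZMod q))]
  refine sum_le_sum fun c _ => ind_mono fun ⟨h1, h2⟩ => ?_
  simp only [Equiv.inv_apply, ne_eq, inv_eq_zero] at h1 h2
  obtain ⟨w, hw⟩ := h
  have e : c ^ u * c ^ v * c = 1 := by
    rw [← pow_add, ← pow_succ, hw, pow_mul, ZMod.pow_card_sub_one_eq_one h1, one_pow]
  have e1 : β / c⁻¹ ^ v = β / c ^ u / c := by
    rw [inv_pow, div_inv_eq_mul, div_div, eq_div_iff (mul_ne_zero (pow_ne_zero _ h1) h1)]
    linear_combination β * e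
  have e2 : lam c (β / c ^ u) = lam c⁻¹ (β / c⁻¹ ^ v) * c ^ 2 := by
    rw [e1, lam, lam]
    field_simp
    ring
  exact ⟨h1, e2 ▸ h2.mul (IsSquare.sq c)⟩

/-- the even one of `u`, `u + 1` -/
def ev (u : ℕ) : ℕ := if Even u then u else u + 1

lemma local_even (hq : 3000 ≤ q) {u : ℕ} (hu : u ≠ 0) (he : Even u) {β : ZMod q} (hβ : β ≠ 0) :
    (q : ℝ) / 100 ≤ TT u β ∨
      ((u.gcd (q - 1) : ℝ) ≤ 144 * √q ∧ (((q - 1) / u.gcd (q - 1) : ℕ) : ℝ) ≤ 144 * √q) := by
  have h0 : (3000 : ℝ) ≤ q := by exact_mod_cast hq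
  have hk := Nat.mul_div_cancel' (Nat.gcd_dvd_right u (q - 1))
  have h1 := coset (by omega) (Nat.gcd_dvd_left u (q - 1)) hk hβ
  have h2 := jac_lower (by omega) hu he hβ
  have h3 := NN_le hu hβ
  have h4 : (#{ζ : ZMod q | ζ ^ u = 1} : ℝ) ≤ u.gcd (q - 1) := by
    refine Nat.cast_le.2 (le_trans (card_le_card fun ζ hζ => ?_) (card_roots_le u))
    have := (mem_filter.1 hζ).2
    exact mem_filter.2 ⟨mem_univ _, this, by rintro rfl; simp [hu] at this⟩
  have h5 : (u.gcd (q - 1) : ℝ) * ((q - 1) / u.gcd (q - 1) : ℕ) ≤ q := by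
    exact_mod_cast hk.le.trans (Nat.sub_le q 1)
  have s1 : √(q : ℝ) * √(q : ℝ) = q := Real.mul_self_sqrt (by positivity)
  have s0 : 0 < √(q : ℝ) := Real.sqrt_pos.2 (by linarith)
  have h6 := mul_le_mul_of_nonneg_right h4 s0.le
  have p1 : (0 : ℝ) ≤ u.gcd (q - 1) := by positivity
  have p2 : (0 : ℝ) ≤ ((q - 1) / u.gcd (q - 1) : ℕ) := by positivity
  generalize (u.gcd (q - 1) : ℝ) = D at *
  generalize (((q - 1) / u.gcd (q - 1) : ℕ) : ℝ) = k at *
  by_contra hc
  push Not at hc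
  by_cases e : D ≤ 144 * √q
  · have := hc.2 e
    have : 144 * D ≤ √q := by nlinarith
    nlinarith
  · have : 144 * k ≤ √q := by nlinarith
    nlinarith

theorem local_lemma (hq : 3000 ≤ q) {u : ℕ} (hu : u ≠ 0) {β : ZMod q} (hβ : β ≠ 0) :
    (q : ℝ) / 100 ≤ TT u β ∨ (((ev u).gcd (q - 1) : ℝ) ≤ 144 * √q ∧
      (((q - 1) / (ev u).gcd (q - 1) : ℕ) : ℝ) ≤ 144 * √q) := by
  unfold ev
  split_ifs with he
  · exact local_even hq hu he hβ
  · have h1 : (q - 2).Coprime (q - 1) := by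
      rw [show q - 1 = q - 2 + 1 by omega]; simp
    have h2 := local_even hq (u := (q - 2) * (u + 1)) (mul_ne_zero (by omega) (by omega))
      ((Nat.even_add_one.2 he).mul_left _) hβ
    rw [h1.gcd_mul_left_cancel] at h2
    refine h2.imp_left fun h => h.trans (TT_symm ⟨u + 1, ?_⟩ β)
    rw [show q - 1 = q - 2 + 1 by omega]
    ring

end Pool.Agent.P.MP_74dd9d_nt.PS
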