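import Pool.Agent.P.MP_74dd9d_nt.PS.Step
import Pool.Agent.P.MP_74dd9d_nt.PS.Jac

/-! A lower bound for the number of points on `(x y) ^ a (1 - x) (1 - y) = β`, `a` even. -/

namespace Pool.Agent.P.MP_74dd9d_nt.PS

open Finset Polynomial

variable {q : ℕ} [Fact q.Prime]

/-- the number of points of the curve -/
def NN (a : ℕ) (β : ZMod q) : ℕ :=
  #{z : ZMod q × ZMod q | (z.1 * z.2) ^ a * ((1 - z.1) * (1 - z.2)) = β}

lemma orth (G : ZMod q → ZMod q → ZMod q) (w : ZMod q → ZMod q → ℂ) :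
    ∑ ψ : DirichletCharacter ℂ q, ∑ x, ∑ y, ψ (G x y) * w x y =
      (q - 1) * ∑ x, ∑ y, if G x y = 1 then w x y else 0 := by
  rw [sum_comm, mul_sum]
  refine sum_congr rfl fun x _ => ?_
  rw [sum_comm, mul_sum]
  refine sum_congr rfl fun y _ => ?_
  rw [← sum_mul, DirichletCharacter.sum_characters_eq, Nat.totient_prime Fact.out,
    Nat.cast_sub (Fact.out : q.Prime).one_le]
  split_ifs <;> simp

lemma sum_vv {a : ℕ} (ha : a ≠ 0) {β : ZMod q} (hβ : β ≠ 0) :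
    ∑ ψ : DirichletCharacter ℂ q, vv β⁻¹ (ψ ^ a) ψ = (q - 1) * NN a β / q := by
  have := orth (fun x y : ZMod q => β⁻¹ * ((x * y) ^ a * ((1 - x) * (1 - y)))) fun _ _ => 1
  simp only [inv_mul_eq_one₀ hβ, eq_comm (a := β)] at this
  rw [NN, card_filter, ← univ_product_univ, sum_product]
  push_cast
  rw [← this, sum_div]
  refine sum_congr rfl fun ψ _ => ?_
  rw [vv, sq, jacobiSum, sum_mul_sum, mul_sum]
  congr 1
  refine sum_congr rfl fun x _ => ?_
  rw [mul_sum]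
  refine sum_congr rfl fun y _ => ?_
  simp only [MulChar.pow_apply' _ ha, map_mul, map_pow]
  ring

lemma weil_c (hq : q ≠ 2) {f : (ZMod q)[X]} {m : ℕ} (hm1 : 1 ≤ m) (hm : f.natDegree ≤ m)
    (H : ∀ (r s : (ZMod q)[X]) (a : ZMod q), r ^ 2 * f = C a * s ^ 2 → r = 0) :
    ‖∑ x : ZMod q, chi q (f.eval x)‖ ≤ 12 * m * √q := by
  refine le_of_eq_of_le ?_ (weil hq hm1 hm H)
  rw [← Real.norm_eq_abs, ← Complex.norm_real]
  simp [chi_apply]

lemma sum_ww (hq : q ≠ 2) {a : ℕ} (ha : a ≠ 0) (β : ZMod q) :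
    ‖∑ ψ : DirichletCharacter ℂ q, vv β (ψ ^ a) (chi q)‖ ≤
      36 * #{ζ : ZMod q | ζ ^ a = 1} * √q := by
  have h1 := orth (fun x y : ZMod q => (x * y) ^ a) fun x y => chi q (1 - x) * chi q (1 - y)
  have h2 : ∑ ψ : DirichletCharacter ℂ q, vv β (ψ ^ a) (chi q) = chi q β / q *
      ∑ ψ : DirichletCharacter ℂ q, ∑ x, ∑ y, ψ ((x * y) ^ a) * (chi q (1 - x) * chi q (1 - y)) := by
    rw [mul_sum]
    refine sum_congr rfl fun ψ _ => ?_
    rw [vv, sq, jacobiSum, sum_mul_sum, mul_div_right_comm]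
    congr 1
    refine sum_congr rfl fun x _ => sum_congr rfl fun y _ => ?_
    simp only [MulChar.pow_apply' _ ha, map_mul, map_pow]
    ring
  have h3 : (∑ x : ZMod q, ∑ y : ZMod q, if (x * y) ^ a = 1 then chi q (1 - x) * chi q (1 - y)
      else 0) = ∑ ζ ∈ ({ζ | ζ ^ a = 1} : Finset (ZMod q)), ∑ x : ZMod q,
        chi q ((X * ((1 - X) * (X - C ζ))).eval x) := by
    rw [sum_comm (s := filter _ _)]
    refine sum_congr rfl fun x _ => ?_
    rcases eq_or_ne x 0 with rfl | hx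
    · simp [ha, MulChar.map_zero]
    rw [sum_filter, eq_comm, ← Equiv.sum_comp (Equiv.mulLeft₀ x hx)]
    refine sum_congr rfl fun y _ => ?_
    simp only [Equiv.mulLeft₀_apply, eval_mul, eval_sub, eval_X, eval_C, eval_one]
    congr 1
    have : chi q x ^ 2 = 1 := by
      rw [← MulChar.pow_apply' _ two_ne_zero, chi_sq, MulChar.one_apply (Ne.isUnit hx)]
    rw [show x * ((1 - x) * (x - x * y)) = x ^ 2 * ((1 - x) * (1 - y)) by ring, map_mul, map_mul,
      map_pow, this, one_mul]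
  have h4 : ‖∑ ζ ∈ ({ζ | ζ ^ a = 1} : Finset (ZMod q)), ∑ x : ZMod q,
      chi q ((X * ((1 - X) * (X - C ζ))).eval x)‖ ≤ 36 * #{ζ : ZMod q | ζ ^ a = 1} * √q := by
    refine (norm_sum_le _ _).trans ((sum_le_card_nsmul _ _ (12 * (3 : ℕ) * √q)
      fun ζ hζ => weil_c hq (by norm_num) (by compute_degree)
        (not_sq_of_simple (K := ZMod q) (ξ := 0) (by simp) ?_)).trans (le_of_eq ?_))
    · have : ζ ≠ 0 := by rintro rfl; simp [ha] at hζ
      simpa using this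
    · rw [nsmul_eq_mul]; push_cast; ring
  have hq0 : (1 : ℝ) ≤ q := by exact_mod_cast (Fact.out : q.Prime).one_le
  have h5 : ‖chi q β / q * (q - 1)‖ ≤ 1 := by
    rw [norm_mul, norm_div, Complex.norm_natCast, div_mul_eq_mul_div, div_le_one (by linarith),
      show ((q : ℂ) - 1) = ((q - 1 : ℝ) : ℂ) by push_cast; rfl, Complex.norm_of_nonneg (by linarith)]
    nlinarith [(chi q).norm_le_one β, norm_nonneg (chi q β)]
  rw [h2, h1, h3, ← mul_assoc, norm_mul]
  exact (mul_le_of_le_one_left (norm_nonneg _) h5).trans h4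

theorem jac_lower (hq : q ≠ 2) {a : ℕ} (ha : a ≠ 0) (he : Even a) {β : ZMod q} (hβ : β ≠ 0) :
    (q : ℝ) / 2 - 29 - 36 * #{ζ : ZMod q | ζ ^ a = 1} * √q ≤ 12 * NN a β := by
  classical
  have hq0 : (2 : ℝ) ≤ q := by exact_mod_cast (Fact.out : q.Prime).two_le
  have hcard : (Fintype.card (DirichletCharacter ℂ q) : ℝ) = q - 1 := by
    rw [← Nat.card_eq_fintype_card, DirichletCharacter.card_eq_totient_of_hasEnoughRootsOfUnity,
      Nat.totient_prime Fact.out, Nat.cast_sub (Fact.out : q.Prime).one_le, Nat.cast_one]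
  set V : DirichletCharacter ℂ q → ℝ := fun ψ => if ψ = 1 then 0 else 1 + (vv β⁻¹ (ψ ^ a) ψ).re
    with hV
  have V0 : ∀ ψ, 0 ≤ V ψ := fun ψ => by
    simp only [hV]
    split_ifs with e
    · rfl
    · linarith [(abs_le.1 ((Complex.abs_re_le_norm _).trans
        (norm_vv_le (inv_ne_zero hβ) (ψ ^ a) e))).1]
  have V1 : ∑ ψ, V ψ ≤ NN a β + 2 := by
    have e1 : ∑ ψ, V ψ + (1 + (vv β⁻¹ ((1 : DirichletCharacter ℂ q) ^ a) 1).re) =
        ∑ ψ : DirichletCharacter ℂ q, (1 + (vv β⁻¹ (ψ ^ a) ψ).re) := by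
      rw [← add_sum_erase _ _ (mem_univ 1), ← add_sum_erase _ _ (mem_univ 1), add_comm]
      simp only [hV, if_true, zero_add]
      congr 1
      exact sum_congr rfl fun ψ h => if_neg (ne_of_mem_erase h)
    have e2 : vv β⁻¹ ((1 : DirichletCharacter ℂ q) ^ a) 1 = ((q - 2) ^ 2 / q : ℝ) := by
      rw [vv, one_pow, jacobiSum_one_one, MulChar.one_apply (Ne.isUnit (inv_ne_zero hβ)), ZMod.card]
      push_cast
      ring
    have e3 : ((q : ℂ) - 1) * NN a β / q = ((q - 1) * NN a β / q : ℝ) := by push_cast; rfl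
    rw [sum_add_distrib, ← Complex.re_sum, sum_vv ha hβ, e2, e3, Complex.ofReal_re,
      Complex.ofReal_re, sum_const, card_univ, nsmul_one, hcard] at e1
    have e4 : ((q : ℝ) - 1) * NN a β / q ≤ NN a β := by
      rw [div_le_iff₀ (by linarith)]; nlinarith [(NN a β).cast_nonneg (α := ℝ)]
    have e5 : (q : ℝ) - 4 ≤ (q - 2) ^ 2 / q := by rw [le_div_iff₀ (by linarith)]; nlinarith
    linarith
  have V2 : ∑ ψ, V (ψ * chi q) = ∑ ψ, V ψ := Equiv.sum_comp (Equiv.mulRight (chi q)) V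
  have fib : ∀ G : DirichletCharacter ℂ q → ℝ, (∀ ψ, 0 ≤ G ψ) → ∑ ψ, G (ψ ^ 2) ≤ 2 * ∑ ψ, G ψ := by
    intro G hG
    rw [← sum_fiberwise (s := univ) (g := fun ψ : DirichletCharacter ℂ q => ψ ^ 2), mul_sum]
    refine sum_le_sum fun ρ _ => ?_
    rw [sum_congr rfl (g := fun _ => G ρ) fun u hu => by rw [(mem_filter.1 hu).2], sum_const,
      nsmul_eq_mul]
    refine mul_le_mul_of_nonneg_right ?_ (hG ρ)
    exact_mod_cast (by convert card_sq ρ)
  have V3 := fib V V0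
  have V4 := fib (fun ψ => if ψ = 1 then 2 else 0) fun ψ => by split_ifs <;> norm_num
  have P : ∀ ψ : DirichletCharacter ℂ q, 1 + (vv β⁻¹ (ψ ^ a) (chi q)).re ≤ 1 / 2 +
      3 * (V ψ + V (ψ * chi q) + V (ψ ^ 2)) + if ψ ^ 2 = 1 then 2 else 0 := fun ψ => by
    split_ifs with e
    · linarith [(Complex.re_le_norm _).trans (norm_vv_le (inv_ne_zero hβ) (ψ ^ a) (chi_ne hq)),
        V0 ψ, V0 (ψ * chi q), V0 (ψ ^ 2)]
    · obtain ⟨k, hk⟩ := he
      have e1 : (ψ * chi q) ^ a = ψ ^ a := by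
        rw [mul_pow, hk, ← two_mul, pow_mul (chi q), chi_sq, one_pow, mul_one]
      simp only [hV, if_neg e, if_neg (ne_of_sq e).1, if_neg (ne_of_sq e).2, e1, add_zero,
        pow_right_comm ψ 2 a]
      exact key hq (inv_ne_zero hβ) _ e
  have S := sum_le_sum fun ψ (_ : ψ ∈ univ) => P ψ
  simp only [sum_add_distrib, ← mul_sum, sum_const, card_univ, nsmul_eq_mul, hcard,
    ← Complex.re_sum] at S
  rw [sum_ite_eq', if_pos (mem_univ _)] at V4
  have W := (abs_le.1 ((Complex.abs_re_le_norm _).trans (sum_ww hq ha β⁻¹))).1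
  linarith

end Pool.Agent.P.MP_74dd9d_nt.PS
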