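import Pool.Agent.P.MP_74dd9d_nt.PS.Smooth

/-! Few primes lie in the window of a given exponent. -/

namespace Pool.Agent.P.MP_74dd9d_nt.PS

open Finset Filter Topology

lemma count_win {F : Type*} [Field F] [Fintype F] [DecidableEq F] :
    ∑ b : F, ∑ a : F, ind (a * b + 1 = 0 ∨ (a = 0 ∧ b ≠ 0)) = 2 * (Fintype.card F - 1) := by
  rw [← add_sum_erase _ _ (mem_univ 0), sum_congr (s₁ := univ.erase 0) rfl (g := fun _ => 2)
    fun b hb => by rw [E2_count (ne_of_mem_erase hb)]; simp [ind, ne_of_mem_erase hb]; norm_num]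
  simp [ind, Nat.cast_sub Fintype.card_pos, mul_comm]

lemma win_sieve (e : ℕ) {t : ℝ} (ht : 0 < t) (Y : ℕ) (S : Finset ℕ)
    (hS : ∀ q ∈ S, q.Prime ∧ Real.exp t < q ∧ e.gcd (q - 1) < Y ∧ (q - 1) / e.gcd (q - 1) < Y) :
    (#S : ℝ) ≤ 16 * Real.exp 26 * Y ^ 2 / t ^ 2 + 6 * Y * Real.exp (64 * t + 388) := by
  set P := Pr t \ range 8 with hP
  have m : ∀ q ∈ P, q.Prime ∧ 8 ≤ q ∧ (q : ℝ) ≤ Real.exp t := fun q hq => by
    obtain ⟨h3, h4⟩ := mem_sdiff.1 hq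
    exact ⟨(mem_Pr.1 h3).2, by simpa using h4, (mem_Pr.1 h3).1⟩
  have hm : ∀ q ∈ S, e.gcd (q - 1) * ((q - 1) / e.gcd (q - 1)) + 1 = q := fun q hq => by
    rw [Nat.mul_div_cancel' (Nat.gcd_dvd_right _ _), Nat.sub_add_cancel (hS q hq).1.one_le]
  have key := sieve (P1 := P) (P2 := ∅) (fun q hq => (m q hq).1) (by simp) (by simp)
    (T1 := 16 * (t + 6)) (T2 := 1) (by linarith) one_pos
    (fun q a b => if q ∣ e then (b : ZMod q) * a + 1 = 0 ∨ ((b : ZMod q) = 0 ∧ (a : ZMod q) ≠ 0)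
      else (a : ZMod q) * b + 1 = 0 ∨ ((a : ZMod q) = 0 ∧ (b : ZMod q) ≠ 0))
    (fun q a b => by simp) (fun q a b => by simp) (fun q => 2 * (1 / q) - 2 * ((q : ℝ) ^ 2)⁻¹)
    (fun q => 2 * (1 / q) - 2 * ((q : ℝ) ^ 2)⁻¹) Y 0 Y (fun q hq => ?_) (by simp) ?_ (by simp)
    (fun q hq => ?_) (by simp) (S.image fun q => (e.gcd (q - 1), (q - 1) / e.gcd (q - 1)))
    fun z hz => ?_
  rotate_left
  · have h8 : (8 : ℝ) ≤ q := by exact_mod_cast (m q hq).2.1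
    have h1 : ((q : ℝ) ^ 2)⁻¹ ≤ 1 / q := by
      rw [one_div]; exact inv_anti₀ (by linarith) (by nlinarith)
    have h2 : (0 : ℝ) ≤ ((q : ℝ) ^ 2)⁻¹ := by positivity
    have h3 : (0 : ℝ) ≤ 1 / q := by positivity
    refine ⟨by linarith, le_rfl, ?_, (m q hq).2.1⟩
    rw [div_eq_mul_one_div 4]
    linarith
  · have := mertens1 ht.le (show P ⊆ Pr t from sdiff_subset)
    linarith
  · have : Fact q.Prime := ⟨(m q hq).1⟩
    have hq0 : (q : ℝ) ≠ 0 := by exact_mod_cast (m q hq).1.ne_zero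
    have h1 : ∑ b ∈ range q, ∑ a ∈ range q, ind ((a : ZMod q) * b + 1 = 0 ∨
        ((a : ZMod q) = 0 ∧ (b : ZMod q) ≠ 0)) = q ^ 2 * (2 * (1 / q) - 2 * ((q : ℝ) ^ 2)⁻¹) := by
      rw [sum_congr rfl fun (b : ℕ) _ => sum_range_zmod q fun a => ind (a * b + 1 = 0 ∨
        (a = 0 ∧ (b : ZMod q) ≠ 0)), sum_range_zmod q fun b => ∑ a : ZMod q,
          ind (a * b + 1 = 0 ∨ (a = 0 ∧ b ≠ 0)), count_win, ZMod.card]
      field_simp
    split_ifs
    · rw [sum_comm, h1]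
    · exact h1
  · obtain ⟨p, hp, rfl⟩ := mem_image.1 hz
    obtain ⟨a1, a2, a3, a4⟩ := hS p hp
    refine ⟨a3, zero_le, by simpa using a4, fun q hq => ?_, by simp⟩
    obtain ⟨b1, -, b4⟩ := m q hq
    have b5 : q < p := by exact_mod_cast b4.trans_lt a2
    have b6 : ((e.gcd (p - 1) : ℕ) : ZMod q) * ((p - 1) / e.gcd (p - 1) : ℕ) + 1 ≠ 0 := fun h => by
      have h' : (p : ZMod q) = 0 := by rw [← hm p hp]; push_cast; exact h
      have := (Nat.prime_dvd_prime_iff_eq b1 a1).1 ((ZMod.natCast_eq_zero_iff _ _).1 h')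
      omega
    simp only [ZMod.natCast_eq_zero_iff, Ne]
    split_ifs with c
    · rintro (h | ⟨h1, h2⟩)
      · exact b6 (by rw [mul_comm]; exact h)
      · exact h2 (Nat.dvd_gcd c (h1.trans (Nat.div_dvd_of_dvd (Nat.gcd_dvd_right _ _))))
    · rintro (h | ⟨h1, -⟩)
      · exact b6 h
      · exact c (h1.trans (Nat.gcd_dvd_left _ _))
  rw [card_image_of_injOn fun a ha b hb h => (hm a ha).symm.trans ((congrArg
    (fun z : ℕ × ℕ => z.1 * z.2 + 1) h).trans (hm b hb)), sum_empty, sum_sub_distrib, ← mul_sum, ← mul_sum] at key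
  have s2 := sum_sdiff_ge (Pr t) (range 8)
  have s3 := sum_range_inv_le 8
  have s4 : ∑ q ∈ P, ((q : ℝ) ^ 2)⁻¹ ≤ 2 := by
    refine le_trans (sum_le_sum_of_subset_of_nonneg (fun q hq => ?_) fun _ _ _ => by positivity)
      (sum_inv_sq_Icc (P.sup id))
    exact mem_Icc.2 ⟨(m q hq).1.pos, le_sup (f := id) hq⟩
  have e1 : Real.exp (6 - (2 * ∑ q ∈ P, 1 / (q : ℝ) - 2 * ∑ q ∈ P, ((q : ℝ) ^ 2)⁻¹) - 0) ≤
      Real.exp 26 * (4 / t ^ 2) := by
    refine le_trans ?_ (mul_le_mul_of_nonneg_left (exp_SS ht) (by positivity))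
    rw [← Real.exp_add, SS]
    push_cast at s3
    exact Real.exp_le_exp.2 (by linarith)
  have e2 := mul_le_mul_of_nonneg_left e1 (show (0 : ℝ) ≤ 4 * Y * Y by positivity)
  have e3 := mul_le_mul_of_nonneg_left (Real.exp_le_exp.2 (show 4 * (16 * (t + 6)) + 3 - 0 ≤
    64 * t + 388 by linarith)) (show (0 : ℝ) ≤ 4 * Y by positivity)
  rw [show 4 * (16 * (t + 6)) + 4 * 1 = 64 * t + 388 by ring] at key
  calc _ ≤ 4 * Y * Y * (Real.exp 26 * (4 / t ^ 2)) + 6 * Y * Real.exp (64 * t + 388) := by linarith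
    _ = _ := by ring

theorem window : ∀ᶠ z : ℕ in atTop, ∀ (e : ℕ) (S : Finset ℕ),
    (∀ q ∈ S, q ≤ z ∧ q.Prime ∧ Real.exp (Real.log z / 2) < q ∧ (e.gcd (q - 1) : ℝ) ≤ 144 * √q ∧
      (((q - 1) / e.gcd (q - 1) : ℕ) : ℝ) ≤ 144 * √q) → (#S : ℝ) ≤ 1 / 8 * (z / Real.log z) := by
  filter_upwards [small_err (870 * Real.exp 388) (ε := 1 / 16) (by norm_num),
    hlog.eventually_ge_atTop (256 * 145 ^ 2 * 256 ^ 2 * Real.exp 26), hlog.eventually_ge_atTop 1,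
    eventually_gt_atTop 0] with z h1 h2 Z0 h3 e S hS
  have z0 : (0 : ℝ) < z := by exact_mod_cast h3
  have hz := (Real.exp_log z0).symm
  set Z := Real.log z
  have s1 : √(z : ℝ) = Real.exp (Z / 2) := by rw [Real.exp_half, ← hz]
  have s2 : 1 ≤ Real.exp (Z / 2) := Real.one_le_exp (by linarith)
  have hY : ((⌊144 * √(z : ℝ)⌋₊ + 1 : ℕ) : ℝ) ≤ 145 * Real.exp (Z / 2) := by
    have := Nat.floor_le (show 0 ≤ 144 * √(z : ℝ) by positivity)
    push_cast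
    linarith
  have a1 := win_sieve e (t := Z / 256) (by linarith) (⌊144 * √(z : ℝ)⌋₊ + 1) S fun q hq => by
    obtain ⟨b1, b2, b3, b4, b5⟩ := hS q hq
    have b6 : 144 * √(q : ℝ) ≤ 144 * √(z : ℝ) := by gcongr
    exact ⟨b2, (Real.exp_le_exp.2 (by linarith)).trans_lt b3,
      Nat.lt_succ_of_le (Nat.le_floor (b4.trans b6)), Nat.lt_succ_of_le (Nat.le_floor (b5.trans b6))⟩
  have Y0 : (0 : ℝ) ≤ ((⌊144 * √(z : ℝ)⌋₊ + 1 : ℕ) : ℝ) := by positivity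
  generalize ((⌊144 * √(z : ℝ)⌋₊ + 1 : ℕ) : ℝ) = Y at *
  have a2 : 16 * Real.exp 26 * Y ^ 2 / (Z / 256) ^ 2 ≤ 1 / 16 * (z / Z) := by
    have b1 : Y ^ 2 ≤ 145 ^ 2 * z := by
      rw [← Real.sq_sqrt z0.le, s1, ← mul_pow]; gcongr
    rw [div_le_iff₀ (by positivity), show 1 / 16 * (z / Z) * (Z / 256) ^ 2 =
      z * Z / (16 * 256 ^ 2) by field_simp]
    have b2 := mul_le_mul_of_nonneg_left b1 (Real.exp_pos 26).le
    have b3 := mul_le_mul_of_nonneg_left h2 z0.le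
    linarith
  have a3 : 6 * Y * Real.exp (64 * (Z / 256) + 388) ≤
      870 * Real.exp 388 * Z * Real.exp (9 / 10 * Z) := by
    have b1 : Real.exp (Z / 2) * Real.exp (64 * (Z / 256)) ≤ Real.exp (9 / 10 * Z) := by
      rw [← Real.exp_add]; exact Real.exp_le_exp.2 (by linarith)
    calc _ ≤ 6 * (145 * Real.exp (Z / 2)) * Real.exp (64 * (Z / 256) + 388) := by gcongr
      _ = 870 * Real.exp 388 * 1 * (Real.exp (Z / 2) * Real.exp (64 * (Z / 256))) := by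
          rw [Real.exp_add]; ring
      _ ≤ _ := by gcongr
  linarith

end Pool.Agent.P.MP_74dd9d_nt.PS
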