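import Pool.Agent.P.MP_74dd9d_nt.PS.Loc
import Pool.Agent.P.MP_74dd9d_nt.PS.Win

/-! A sieve removing a positive proportion of the classes modulo many small primes. -/

namespace Pool.Agent.P.MP_74dd9d_nt.PS

open Finset Filter Topology

lemma sift {P : Finset ℕ} (hP : ∀ q ∈ P, q.Prime) {z k : ℕ} (hz : ∀ q ∈ P, q ≤ z) {D : ℝ}
    (hD : 1 ≤ D) (hk : (z : ℝ) ^ k ≤ D) (E : ℕ → ℕ → Prop) (hE : ∀ q a, E q (a + q) ↔ E q a)
    (hg : ∀ q ∈ P, (q : ℝ) / 100 ≤ ∑ a ∈ range q, ind (E q a)) {G : ℝ} (G0 : 0 < G)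
    (hG : G ≤ (#P).choose k * (1 / 100) ^ k) (A : ℕ) (S : Finset ℕ)
    (hS : ∀ a ∈ S, a < A ∧ ∀ q ∈ P, ¬ E q a) : (#S : ℝ) ≤ A / G + 2 * D ^ 4 := by
  set g : ℕ → ℝ := fun q => (∑ a ∈ range q, ind (E q a)) / q with hgd
  have hb : ∀ q ∈ P, 1 / 100 ≤ g q ∧ g q ≤ 1 := fun q hq => by
    have q0 : (0 : ℝ) < q := by exact_mod_cast (hP q hq).pos
    refine ⟨by rw [le_div_iff₀ q0]; linarith [hg q hq], ?_⟩
    rw [div_le_one q0]
    simpa using sum_le_sum fun a (_ : a ∈ range q) => (ind_01 (E q a)).2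
  have hsq : ∀ (p : Prop) (t : ℝ), (t + (t - 1 - t) * ind p) ^ 2 =
      t ^ 2 + ((t - 1) ^ 2 - t ^ 2) * ind p := fun p t => by unfold ind; split_ifs <;> ring
  have key := sieve_inner (P1 := ∅) (by simp) hP (by simp) zero_le_one (by linarith : 0 ≤ D)
    (fun q a => g q + (g q - 1 - g q) * ind (E q a)) g g (fun q => g q * (1 - g q)) (by simp)
    (fun q hq => ?_) A
  rotate_left
  · obtain ⟨b1, b2⟩ := hb q hq
    have q0 := (hP q hq).pos
    have q1 : (q : ℝ) ≠ 0 := by positivity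
    have e1 : ∀ a, ind (E q (a + q)) = ind (E q a) := fun a => by rw [propext (hE q a)]
    have e2 : ∑ a ∈ range q, ind (E q a) = q * g q := by rw [hgd]; field_simp
    have p1 := PM.affine q0 e1 (fun a => ind_01 _) e2 (u := g q) (v := g q - 1)
      (abs_le.2 ⟨by linarith, b2⟩) (abs_le.2 ⟨by linarith, by linarith⟩)
    have p2 := PM.affine q0 e1 (fun a => ind_01 _) e2 (u := g q ^ 2) (v := (g q - 1) ^ 2)
      (abs_le.2 ⟨by nlinarith, by nlinarith⟩) (abs_le.2 ⟨by nlinarith, by nlinarith⟩)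
    simp only [hsq]
    exact ⟨by convert p1 using 1; ring, by convert p2 using 1; ring⟩
  have d0 : DD ∅ 1 = {∅} := by ext d; simp [mem_DD]; rintro rfl; simp
  simp only [GG, d0, sum_singleton, prod_empty, one_mul, singleton_product_singleton, pr,
    union_self, mul_one, one_pow] at key
  have g1 : 1 ≤ GG P D g := one_le_GG hD fun q hq => by linarith [(hb q hq).1]
  have g2 : G ≤ GG P D g := by
    refine hG.trans (le_trans ?_ (sum_le_sum_of_subset_of_nonneg (s := powersetCard k P)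
      (fun d hd => ?_) fun d hd _ => prod_nonneg fun q hq => ?_))
    · rw [← card_powersetCard, ← nsmul_eq_mul, ← sum_const]
      refine sum_le_sum fun d hd => ?_
      obtain ⟨h1, h2⟩ := mem_powersetCard.1 hd
      rw [← h2, ← prod_const]
      exact prod_le_prod (fun _ _ => by norm_num) fun q hq => (hb q (h1 hq)).1
    · obtain ⟨h1, h2⟩ := mem_powersetCard.1 hd
      refine mem_DD.2 ⟨h1, le_trans ?_ hk⟩
      rw [← h2]
      exact_mod_cast prod_le_pow_card d _ z fun q hq => hz q (h1 hq)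
    · linarith [(hb q ((mem_DD.1 hd).1 hq)).1]
  have g3 : ∑ d ∈ DD P D, ∏ q ∈ d, g q * (1 - g q) ≤ GG P D g :=
    sum_le_sum fun d hd => prod_le_prod (fun q hq => ?_) fun q hq => ?_
  rotate_left
  · obtain ⟨b1, b2⟩ := hb q ((mem_DD.1 hd).1 hq)
    nlinarith
  · obtain ⟨b1, b2⟩ := hb q ((mem_DD.1 hd).1 hq)
    nlinarith
  have low : #S * GG P D g ^ 2 ≤ ∑ a ∈ range A,
      (∑ d ∈ DD P D, ∏ q ∈ d, (g q + (g q - 1 - g q) * ind (E q a))) ^ 2 := by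
    refine le_trans ?_ (sum_le_sum_of_subset_of_nonneg (s := S)
      (fun a ha => mem_range.2 (hS a ha).1) fun _ _ _ => sq_nonneg _)
    rw [← nsmul_eq_mul, ← sum_const]
    refine sum_le_sum fun a ha => le_of_eq ?_
    congr 1
    exact sum_congr rfl fun d hd => prod_congr rfl fun q hq => by
      simp [ind, (hS a ha).2 q ((mem_DD.1 hd).1 hq)]
  have h1 := low.trans key
  have h2 := mul_le_mul_of_nonneg_left g3 (Nat.cast_nonneg (α := ℝ) A)
  generalize GG P D g = W at *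
  have h3 : (A : ℝ) * W ≤ A / G * W ^ 2 := by
    rw [div_mul_eq_mul_div, le_div_iff₀ G0, sq, ← mul_assoc]
    exact mul_le_mul_of_nonneg_left g2 (by positivity)
  have h4 : 2 * D ^ 4 ≤ 2 * D ^ 4 * W ^ 2 := le_mul_of_one_le_right (by positivity) (one_le_pow₀ g1)
  refine le_of_mul_le_mul_right (a := W ^ 2) ?_ (by positivity)
  linarith

/-- the common exponent -/
def LL (y z : ℕ) : ℕ := ∏ p ∈ Icc 1 y, p ^ Nat.log p z

lemma LL_pos (y z : ℕ) : 0 < LL y z :=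
  prod_pos fun _ hp => pow_pos (mem_Icc.1 hp).1 _

lemma LL_le (y : ℕ) {z : ℕ} (hz : z ≠ 0) : LL y z ≤ z ^ y := by
  simpa [LL] using prod_le_pow_card (Icc 1 y) _ z fun p _ => Nat.pow_log_le_self p hz

lemma dvd_LL {y z N : ℕ} (h0 : N ≠ 0) (hN : N ≤ z) (h : ∀ p, p.Prime → p ∣ N → p ≤ y) :
    N ∣ LL y z := by
  rw [← Nat.prod_factorization_pow_eq_self h0, Nat.prod_factorization_eq_prod_primeFactors]
  refine (prod_dvd_prod_of_dvd _ (fun p => p ^ Nat.log p z) fun p hp => ?_).trans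
    (prod_dvd_prod_of_subset _ _ _ fun p hp => ?_)
  · exact pow_dvd_pow _ (Nat.le_log_of_pow_le (Nat.prime_of_mem_primeFactors hp).one_lt
      ((Nat.le_of_dvd (Nat.pos_of_ne_zero h0) (Nat.ordProj_dvd N p)).trans hN))
  · have := Nat.prime_of_mem_primeFactors hp
    exact mem_Icc.2 ⟨this.pos, h p this (Nat.dvd_of_mem_primeFactors hp)⟩

/-- the primes of the cover -/
def QQ (y z : ℕ) : Finset ℕ := {q ∈ range (z + 1) | q.Prime ∧ 3000 ≤ q ∧ q - 1 ∣ LL y z}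

theorem good : ∃ κ : ℝ, 0 < κ ∧ κ ≤ 1 / 4 ∧ ∀ᶠ z : ℕ in atTop, ∀ u : ℕ, u ≠ 0 →
    ∃ P ⊆ QQ ⌊Real.exp ((1 - κ) * Real.log z)⌋₊ z, 1 / 8 * (z / Real.log z) ≤ #P ∧
      ∀ q ∈ P, ∀ _ : Fact q.Prime, ∀ β : ZMod q, β ≠ 0 → (q : ℝ) / 100 ≤ TT u β := by
  classical
  obtain ⟨κ, k0, k1, hs⟩ := smooth
  refine ⟨κ, k0, k1, ?_⟩
  filter_upwards [hs, window, pi_lower, small_err 2 (ε := 1 / 8) (by norm_num),
    hlog.eventually_ge_atTop 6000] with z h1 h2 h3 h4 h5 u hu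
  set Z := Real.log z
  set y := ⌊Real.exp ((1 - κ) * Z)⌋₊
  set P := {q ∈ QQ y z | ∀ _ : Fact q.Prime, ∀ β : ZMod q, β ≠ 0 → (q : ℝ) / 100 ≤ TT u β}
  refine ⟨P, filter_subset _ _, ?_, fun q hq => (mem_filter.1 hq).2⟩
  set S1 := {q ∈ Nat.primesLE z | ∃ p : ℕ, p.Prime ∧ p ∣ q - 1 ∧ Real.exp ((1 - κ) * Z) < p}
  set S2 := {q ∈ Nat.primesLE z | Real.exp (Z / 2) < (q : ℕ) ∧
      ((ev u).gcd (q - 1) : ℝ) ≤ 144 * √q ∧ (((q - 1) / (ev u).gcd (q - 1) : ℕ) : ℝ) ≤ 144 * √q}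
  have c1 := h1 S1 fun q hq => by
    obtain ⟨a1, a2⟩ := mem_filter.1 hq
    exact ⟨(Nat.mem_primesLE.1 a1).1, (Nat.mem_primesLE.1 a1).2, a2⟩
  have c2 := h2 (ev u) S2 fun q hq => by
    obtain ⟨a1, a2⟩ := mem_filter.1 hq
    exact ⟨(Nat.mem_primesLE.1 a1).1, (Nat.mem_primesLE.1 a1).2, a2⟩
  have e1 : 3001 ≤ Real.exp (Z / 2) := by linarith [Real.add_one_le_exp (Z / 2)]
  have c3 : Nat.primesLE z ⊆ P ∪ S1 ∪ S2 ∪ range (⌊Real.exp (Z / 2)⌋₊ + 1) := by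
    intro q hq
    obtain ⟨a1, a2⟩ := Nat.mem_primesLE.1 hq
    by_contra hc
    simp only [mem_union, not_or, mem_range, not_lt] at hc
    obtain ⟨⟨⟨b1, b2⟩, b3⟩, b4⟩ := hc
    have b5 : Real.exp (Z / 2) < q := Nat.lt_of_floor_lt b4
    have b6 : 3000 ≤ q := by exact_mod_cast (by linarith : (3000 : ℝ) ≤ q)
    refine b1 (mem_filter.2 ⟨mem_filter.2 ⟨mem_range.2 (by omega), a2, b6, dvd_LL (by omega)
      (by omega) fun p hp hd => Nat.le_floor (not_lt.1 fun h => ?_)⟩, fun _ β hβ => ?_⟩)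
    · exact b2 (mem_filter.2 ⟨hq, p, hp, hd, h⟩)
    · exact (local_lemma b6 hu hβ).resolve_right fun h => b3 (mem_filter.2 ⟨hq, b5, h⟩)
  have c4 := (card_le_card c3).trans ((card_union_le _ _).trans (add_le_add_left
    ((card_union_le _ _).trans (add_le_add_left (card_union_le _ _) _)) _))
  rw [Nat.primesLE_card_eq_primeCounting, card_range] at c4
  have c5 : (Nat.primeCounting z : ℝ) ≤ #P + #S1 + #S2 + (⌊Real.exp (Z / 2)⌋₊ + 1) := by
    exact_mod_cast c4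
  have c6 := Nat.floor_le (Real.exp_pos (Z / 2)).le
  have c7 : Real.exp (Z / 2) ≤ Real.exp (9 / 10 * Z) := Real.exp_le_exp.2 (by linarith)
  nlinarith

end Pool.Agent.P.MP_74dd9d_nt.PS
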