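import Pool.Agent.P.MP_74dd9d_nt.Main

/-! Few primes `q` have a very large prime factor of `q - 1`. -/

namespace Pool.Agent.P.MP_74dd9d_nt.PS

open Finset Filter Topology

/-- the local factor of the sieve bound -/
noncomputable def WW (k : ℕ) : ℝ := Real.exp (2 * ∑ l ∈ k.primeFactors, 1 / (l : ℝ))

lemma exp_SS {t : ℝ} (ht : 0 < t) : Real.exp (-(2 * SS t)) ≤ 4 / t ^ 2 := by
  have h := pow_le_pow_left₀ (Real.exp_pos _).le (exp_neg_SS ht) 2
  rw [← Real.exp_nat_mul, div_pow] at h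
  rw [show -(2 * SS t) = ((2 : ℕ) : ℝ) * -SS t by push_cast; ring]
  exact h.trans (le_of_eq (by norm_num))

lemma twin {k : ℕ} (hk : k ≠ 0) {t : ℝ} (ht : 0 < t) (A : ℕ) (S : Finset ℕ)
    (hS : ∀ p ∈ S, p < A ∧ p.Prime ∧ (p * k + 1).Prime ∧ Real.exp t < p) :
    (#S : ℝ) ≤ 32 * Real.exp 23 * A * WW k / t ^ 2 + 2 * Real.exp (64 * t + 388) := by
  set P := (Pr t \ range 8) \ k.primeFactors with hP
  have m : ∀ q ∈ P, q.Prime ∧ 8 ≤ q ∧ ¬ q ∣ k ∧ (q : ℝ) ≤ Real.exp t := fun q hq => by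
    obtain ⟨h1, h2⟩ := mem_sdiff.1 hq
    obtain ⟨h3, h4⟩ := mem_sdiff.1 h1
    exact ⟨(mem_Pr.1 h3).2, by simpa using h4,
      fun h => h2 (Nat.mem_primeFactors.2 ⟨(mem_Pr.1 h3).2, h, hk⟩), (mem_Pr.1 h3).1⟩
  have key := sieve (P1 := ∅) (P2 := P) (by simp) (fun q hq => (m q hq).1) (by simp)
    (T1 := 1) (T2 := 16 * (t + 6)) one_pos (by linarith)
    (fun q a b => (a : ZMod q) * b + 1 = 0 ∨ ((a : ZMod q) = 0 ∧ True))
    (fun q a b => by simp) (fun q a b => by simp) (fun q => 2 * (1 / q)) (fun q => 2 * (1 / q))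
    A k 1 (by simp) (fun q hq => ?_) (by simp) ?_ (by simp) (fun q hq i hi => ?_)
    (S.image fun p => (p, k)) fun z hz => ?_
  rotate_left
  · refine ⟨by positivity, le_rfl, ?_, (m q hq).2.1⟩
    rw [mul_one_div]
    exact div_le_div_of_nonneg_right (by norm_num) (by positivity)
  · have := mertens1 ht.le (show P ⊆ Pr t from sdiff_subset.trans sdiff_subset)
    linarith
  · obtain ⟨a1, -, a3, -⟩ := m q hq
    have : Fact q.Prime := ⟨a1⟩
    have hq0 : (q : ℝ) ≠ 0 := by exact_mod_cast a1.ne_zero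
    obtain rfl : i = 0 := by omega
    rw [add_zero, sum_range_zmod q fun a => ind (a * k + 1 = 0 ∨ (a = 0 ∧ True)),
      E2_count (by rwa [Ne, ZMod.natCast_eq_zero_iff])]
    simp only [ind, if_true]
    field_simp
    norm_num
  · obtain ⟨p, hp, rfl⟩ := mem_image.1 hz
    obtain ⟨a1, a2, a3, a4⟩ := hS p hp
    refine ⟨a1, le_rfl, by simp, by simp, fun q hq => ?_⟩
    obtain ⟨b1, -, -, b4⟩ := m q hq
    have b5 : q < p := by exact_mod_cast b4.trans_lt a4
    rintro (h | ⟨h, -⟩)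
    · have h' : ((p * k + 1 : ℕ) : ZMod q) = 0 := by push_cast; exact h
      have := (Nat.prime_dvd_prime_iff_eq b1 a3).1 ((ZMod.natCast_eq_zero_iff _ _).1 h')
      have := Nat.le_mul_of_pos_right p (Nat.pos_of_ne_zero hk)
      omega
    · have := (Nat.prime_dvd_prime_iff_eq b1 a2).1 ((ZMod.natCast_eq_zero_iff _ _).1 h)
      omega
  rw [card_image_of_injective _ fun a b h => (Prod.ext_iff.1 h).1, sum_empty, ← mul_sum] at key
  have s1 := sum_sdiff_ge (Pr t \ range 8) k.primeFactors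
  have s2 := sum_sdiff_ge (Pr t) (range 8)
  have s3 := sum_range_inv_le 8
  have e1 : ∀ c : ℝ, c ≤ 7 → Real.exp (c - 2 * ∑ q ∈ P, 1 / (q : ℝ)) ≤
      Real.exp 23 * WW k * (4 / t ^ 2) := fun c hc => by
    refine le_trans ?_ (mul_le_mul_of_nonneg_left (exp_SS ht) (by unfold WW; positivity))
    rw [WW, ← Real.exp_add, ← Real.exp_add, SS]
    push_cast at s3
    exact Real.exp_le_exp.2 (by linarith)
  have e2 := mul_le_mul_of_nonneg_left (e1 (6 - 0) (by norm_num)) (show (0 : ℝ) ≤ 4 * A by positivity)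
  have e3 := mul_le_mul_of_nonneg_left (e1 (4 * 1 + 3) (by norm_num))
    (show (0 : ℝ) ≤ 4 * A by positivity)
  rw [show 4 * 1 + 4 * (16 * (t + 6)) = 64 * t + 388 by ring] at key
  push_cast at key
  calc _ ≤ 8 * A * (Real.exp 23 * WW k * (4 / t ^ 2)) + 2 * Real.exp (64 * t + 388) := by linarith
    _ = _ := by ring

lemma harm (K : ℕ) : ∑ k ∈ Icc 1 K, 1 / (k : ℝ) ≤ 1 + Real.log K := by
  have := harmonic_le_one_add_log K
  rw [harmonic_eq_sum_Icc] at this
  push_cast at this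
  simpa using this

lemma sum_dvd_le {d : ℕ} (hd : 0 < d) (K : ℕ) :
    ∑ k ∈ Icc 1 K with d ∣ k, 1 / (k : ℝ) ≤ 1 / d * (1 + Real.log K) := by
  refine le_trans ?_ (mul_le_mul_of_nonneg_left (harm K) (by positivity))
  rw [mul_sum]
  refine le_trans (sum_le_sum_of_subset_of_nonneg (t := (Icc 1 K).image (d * ·)) (fun k hk => ?_)
    fun _ _ _ => by positivity) (le_of_eq ?_)
  · obtain ⟨h1, j, rfl⟩ := mem_filter.1 hk
    rw [mem_Icc] at h1
    refine mem_image.2 ⟨j, mem_Icc.2 ⟨Nat.pos_of_mul_pos_left h1.1, ?_⟩, rfl⟩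
    exact (Nat.le_mul_of_pos_left j hd).trans h1.2
  · rw [sum_image fun a _ b _ h => Nat.eq_of_mul_eq_mul_left hd h]
    exact sum_congr rfl fun j _ => by push_cast; rw [one_div_mul_one_div]

lemma avg (K : ℕ) : ∑ k ∈ Icc 1 K, WW k / k ≤ Real.exp 8 * (1 + Real.log K) := by
  set P := (Icc 1 K).filter Nat.Prime with hP
  have hL : 0 ≤ 1 + Real.log K := by linarith [Real.log_natCast_nonneg K]
  have h1 : ∀ k ∈ Icc 1 K, WW k / k ≤ ∑ S ∈ P.powerset, (∏ l ∈ S, 4 / (l : ℝ)) *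
      if (∏ l ∈ S, l) ∣ k then 1 / (k : ℝ) else 0 := fun k hk => by
    rw [mem_Icc] at hk
    have a1 : WW k ≤ ∑ S ∈ k.primeFactors.powerset, ∏ l ∈ S, 4 / (l : ℝ) := by
      rw [← prod_one_add, WW, mul_sum, Real.exp_sum]
      refine prod_le_prod (fun _ _ => (Real.exp_pos _).le) fun l hl => ?_
      have b1 : (2 : ℝ) ≤ l := by exact_mod_cast (Nat.prime_of_mem_primeFactors hl).two_le
      have b2 : 2 * (1 / (l : ℝ)) ≤ 1 := by rw [mul_one_div, div_le_one (by linarith)]; exact b1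
      have b3 := Real.abs_exp_sub_one_le (x := 2 * (1 / (l : ℝ)))
        (by rwa [abs_of_nonneg (by positivity)])
      rw [abs_of_nonneg (a := 2 * (1 / (l : ℝ))) (by positivity)] at b3
      rw [div_eq_mul_one_div 4]
      linarith [le_abs_self (Real.exp (2 * (1 / (l : ℝ))) - 1)]
    rw [div_eq_mul_one_div]
    refine (mul_le_mul_of_nonneg_right a1 (by positivity)).trans ?_
    rw [sum_mul]
    refine le_trans (le_of_eq (sum_congr rfl fun S hS => ?_)) (sum_le_sum_of_subset_of_nonneg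
      (powerset_mono.2 fun l hl => ?_) fun _ _ _ => by positivity)
    · rw [if_pos ((prod_dvd_prod_of_subset _ _ _ (mem_powerset.1 hS)).trans
        (Nat.prod_primeFactors_dvd k))]
    · have := Nat.le_of_mem_primeFactors hl
      have h2 := Nat.prime_of_mem_primeFactors hl
      exact mem_filter.2 ⟨mem_Icc.2 ⟨h2.pos, by omega⟩, h2⟩
  refine (sum_le_sum h1).trans ?_
  rw [sum_comm]
  have h2 : ∀ S ∈ P.powerset, (∑ k ∈ Icc 1 K, (∏ l ∈ S, 4 / (l : ℝ)) *
      if (∏ l ∈ S, l) ∣ k then 1 / (k : ℝ) else 0) ≤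
      (∏ l ∈ S, 4 * ((l : ℝ) ^ 2)⁻¹) * (1 + Real.log K) := fun S hS => by
    rw [← mul_sum, ← sum_filter]
    refine (mul_le_mul_of_nonneg_left (sum_dvd_le (prod_pos fun l hl =>
      (mem_filter.1 (mem_powerset.1 hS hl)).2.pos) K) (by positivity)).trans (le_of_eq ?_)
    rw [← mul_assoc, Nat.cast_prod, one_div, ← prod_inv_distrib, ← prod_mul_distrib]
    congr 1
    exact prod_congr rfl fun l _ => by ring
  refine (sum_le_sum h2).trans ?_
  rw [← sum_mul, ← prod_one_add]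
  refine mul_le_mul_of_nonneg_right ?_ hL
  refine (prod_le_prod (fun _ _ => by positivity) fun l _ =>
    (add_comm _ _).le.trans (Real.add_one_le_exp _)).trans ?_
  rw [← Real.exp_sum, ← mul_sum]
  have h3 := sum_inv_sq_Icc K
  have h4 := sum_le_sum_of_subset_of_nonneg (f := fun k : ℕ => ((k : ℝ) ^ 2)⁻¹)
    (filter_subset Nat.Prime (Icc 1 K)) fun _ _ _ => by positivity
  exact Real.exp_le_exp.2 (by linarith)

lemma hlog : Tendsto (fun x : ℕ => Real.log x) atTop atTop :=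
  Real.tendsto_log_atTop.comp tendsto_natCast_atTop_atTop

theorem smooth : ∃ κ : ℝ, 0 < κ ∧ κ ≤ 1 / 4 ∧ ∀ᶠ z : ℕ in atTop, ∀ S : Finset ℕ,
    (∀ q ∈ S, q ≤ z ∧ q.Prime ∧ ∃ p : ℕ, p.Prime ∧ p ∣ q - 1 ∧ Real.exp ((1 - κ) * Real.log z) < p) →
    (#S : ℝ) ≤ 1 / 8 * (z / Real.log z) := by
  classical
  set M : ℝ := 64 * 128 ^ 2 * Real.exp 23 * Real.exp 8 with hM
  have M1 : 1 ≤ M := by
    have := one_le_mul_of_one_le_of_one_le (Real.one_le_exp (x := 23) (by norm_num))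
      (Real.one_le_exp (x := 8) (by norm_num))
    linarith
  refine ⟨1 / (32 * M), by positivity, one_div_le_one_div_of_le (by norm_num) (by linarith), ?_⟩
  set κ := 1 / (32 * M) with hκ
  have κ0 : 0 < κ := by positivity
  have κ1 : κ ≤ 1 / 4 := one_div_le_one_div_of_le (by norm_num) (by linarith)
  filter_upwards [small_err (2 * Real.exp 388) (ε := 1 / 16) (by norm_num),
    hlog.eventually_ge_atTop (32 * M), eventually_gt_atTop 0] with z h1 h2 h3 S hS
  have z0 : (0 : ℝ) < z := by exact_mod_cast h3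
  have hz := (Real.exp_log z0).symm
  set Z := Real.log z
  set K := ⌊Real.exp (κ * Z)⌋₊ with hK
  have K1 : (K : ℝ) ≤ Real.exp (κ * Z) := Nat.floor_le (Real.exp_pos _).le
  have Z0 : 1 ≤ Z := by linarith
  have K2 : Real.log K ≤ κ * Z := by
    refine (Real.log_le_iff_le_exp ?_).2 K1
    exact_mod_cast Nat.floor_pos.2 (Real.one_le_exp (by positivity))
  set T : ℕ → Finset ℕ := fun k => (range (z / k + 1)).filter
    fun p => p.Prime ∧ (p * k + 1).Prime ∧ Real.exp (Z / 128) < p with hT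
  have a1 : S ⊆ (Icc 1 K).biUnion fun k => (T k).image fun p => p * k + 1 := by
    intro q hq
    obtain ⟨b1, b2, p, b3, ⟨k, b4⟩, b5⟩ := hS q hq
    have b6 := b2.two_le
    have b7 : 0 < k := Nat.pos_of_ne_zero (by rintro rfl; omega)
    have b8 : p * k + 1 = q := by omega
    have b9 : (p : ℝ) * k ≤ Real.exp ((1 - κ) * Z) * Real.exp (κ * Z) := by
      rw [← Real.exp_add, show (1 - κ) * Z + κ * Z = Z by ring, ← hz]
      exact_mod_cast (by omega : p * k ≤ z)
    refine mem_biUnion.2 ⟨k, mem_Icc.2 ⟨b7, Nat.le_floor (le_of_mul_le_mul_left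
      (le_trans (by gcongr) b9) (Real.exp_pos _))⟩, mem_image.2 ⟨p, mem_filter.2 ⟨mem_range.2
        (Nat.lt_succ_of_le ((Nat.le_div_iff_mul_le b7).2 (by omega))), b3, b8 ▸ b2,
        lt_of_le_of_lt (Real.exp_le_exp.2 (by nlinarith)) b5⟩, b8⟩⟩
  have a2 : ∀ k ∈ Icc 1 K, (#((T k).image fun p => p * k + 1) : ℝ) ≤
      64 * 128 ^ 2 * Real.exp 23 * (z / Z ^ 2) * (WW k / k) + 2 * Real.exp (Z / 2 + 388) := by
    intro k hk
    rw [mem_Icc] at hk
    have k0 : (0 : ℝ) < k := by exact_mod_cast hk.1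
    have b1 := twin (k := k) (by omega) (t := Z / 128) (by linarith) (z / k + 1) (T k)
      fun p hp => ⟨mem_range.1 (mem_filter.1 hp).1, (mem_filter.1 hp).2⟩
    have b2 : ((z / k + 1 : ℕ) : ℝ) ≤ 2 * (z / k) := by
      have c1 : ((z / k : ℕ) : ℝ) ≤ z / k := Nat.cast_div_le
      have c2 : (1 : ℝ) ≤ z / k := by
        rw [one_le_div k0, hz]
        exact (Nat.cast_le.2 hk.2).trans (K1.trans (Real.exp_le_exp.2 (by nlinarith)))
      push_cast
      linarith
    rw [show 64 * (Z / 128) = Z / 2 by ring] at b1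
    refine (Nat.cast_le.2 card_image_le).trans (b1.trans (add_le_add_left ?_ _))
    have W0 : 0 ≤ WW k := (Real.exp_pos _).le
    calc _ ≤ 32 * Real.exp 23 * (2 * (z / k)) * WW k / (Z / 128) ^ 2 := by gcongr
      _ = _ := by field_simp; ring
  have a3 : (#S : ℝ) ≤ ∑ k ∈ Icc 1 K, (#((T k).image fun p => p * k + 1) : ℝ) := by
    exact_mod_cast (card_le_card a1).trans card_biUnion_le
  have a4 := a3.trans (sum_le_sum a2)
  rw [sum_add_distrib, ← mul_sum, sum_const, Nat.card_Icc, add_tsub_cancel_right,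
    nsmul_eq_mul] at a4
  have a5 : 64 * 128 ^ 2 * Real.exp 23 * (z / Z ^ 2) * ∑ k ∈ Icc 1 K, WW k / k ≤
      1 / 16 * (z / Z) := by
    have b1 : 1 + Real.log K ≤ Z / (16 * M) := by
      have c1 : 1 ≤ κ * Z := by rw [hκ, one_div_mul_eq_div, one_le_div (by positivity)]; exact h2
      have c2 : Z / (16 * M) = 2 * (κ * Z) := by rw [hκ]; field_simp; norm_num
      linarith
    calc _ ≤ 64 * 128 ^ 2 * Real.exp 23 * (z / Z ^ 2) * (Real.exp 8 * (Z / (16 * M))) := by
          refine mul_le_mul_of_nonneg_left ((avg K).trans (by gcongr)) (by positivity)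
      _ = _ := by rw [hM]; field_simp
  have a6 : K * (2 * Real.exp (Z / 2 + 388)) ≤ 2 * Real.exp 388 * Z * Real.exp (9 / 10 * Z) := by
    have b1 : Real.exp (κ * Z) * Real.exp (Z / 2) ≤ Real.exp (9 / 10 * Z) := by
      rw [← Real.exp_add]; exact Real.exp_le_exp.2 (by nlinarith)
    calc _ ≤ Real.exp (κ * Z) * (2 * Real.exp (Z / 2 + 388)) := by gcongr
      _ = 2 * Real.exp 388 * 1 * (Real.exp (κ * Z) * Real.exp (Z / 2)) := by
          rw [Real.exp_add]; ring
      _ ≤ _ := by gcongr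
  linarith

end Pool.Agent.P.MP_74dd9d_nt.PS
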