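import Mathlib

/-! Stepanov's method: square root cancellation for quadratic character sums over prime fields. -/

namespace Pool.Agent.P.MP_74dd9d_nt.PS

open Polynomial Finset

section Op

variable {F : Type*} [Field F]

/-- the polynomial left after differentiating `f ^ n * u` several times -/
noncomputable def opP (f : F[X]) (n : ℕ) : ℕ → F[X] →ₗ[F] F[X]
  | 0 => LinearMap.id
  | k + 1 => LinearMap.mulLeft F (C ((n - k : ℕ) : F) * derivative f) ∘ₗ opP f n k +
      LinearMap.mulLeft F f ∘ₗ derivative ∘ₗ opP f n k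

lemma opP_succ (f : F[X]) (n k : ℕ) (u : F[X]) : opP f n (k + 1) u =
    C ((n - k : ℕ) : F) * derivative f * opP f n k u + f * derivative (opP f n k u) := rfl

lemma iter_pow_mul (f u : F[X]) {n k : ℕ} (h : k ≤ n) :
    derivative^[k] (f ^ n * u) = f ^ (n - k) * opP f n k u := by
  induction k with
  | zero => rfl
  | succ k ih =>
    obtain ⟨j, hj⟩ : ∃ j, n - k = j + 1 := ⟨n - (k + 1), by omega⟩
    have hj' : n - (k + 1) = j := by omega
    rw [Function.iterate_succ_apply', ih (by omega), opP_succ, hj, hj', derivative_mul,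
      derivative_pow_succ]
    push_cast
    ring

lemma opP_deg {f : F[X]} {m : ℕ} (hm : f.natDegree ≤ m) (n k : ℕ) (u : F[X]) :
    (opP f n k u).natDegree ≤ u.natDegree + k * m := by
  induction k with
  | zero => exact le_of_eq (by simp [opP])
  | succ k ih =>
    rw [opP_succ]
    have h1 := natDegree_derivative_le f
    have h2 := natDegree_derivative_le (opP f n k u)
    have h3 := natDegree_C_mul_le ((n - k : ℕ) : F) (derivative f)
    have h4 : (k + 1) * m = k * m + m := by ring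
    refine natDegree_add_le_of_degree_le (natDegree_mul_le.trans ?_) (natDegree_mul_le.trans ?_) <;>
      omega

lemma iter_mul_const (p T : F[X]) (hT : derivative T = 0) (k : ℕ) :
    derivative^[k] (p * T) = derivative^[k] p * T := by
  induction k with
  | zero => rfl
  | succ k ih =>
    rw [Function.iterate_succ_apply', Function.iterate_succ_apply', ih, derivative_mul, hT]
    ring

/-- no nontrivial relation between the auxiliary polynomials -/
lemma indep {f W : F[X]} {q d : ℕ} {e : F} (he : e ≠ 0)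
    (H : ∀ (r s : F[X]) (a : F), r ^ 2 * f = C a * s ^ 2 → r = 0)
    (hd : 2 * d + f.natDegree < q) (J : ℕ) (r s : ℕ → F[X])
    (hr : ∀ j, (r j).natDegree ≤ d ∧ (s j).natDegree ≤ d)
    (h : (∑ j ∈ range J, r j * (X ^ q) ^ j) ^ 2 * f =
      (∑ j ∈ range J, s j * (X ^ q) ^ j) ^ 2 * (C e + X ^ q * W)) :
    ∀ j < J, r j = 0 ∧ s j = 0 := by
  induction J generalizing r s with
  | zero => intro j hj; omega
  | succ J ih =>
    rw [sum_range_succ', sum_range_succ'] at h
    simp only [pow_succ _ (_ : ℕ), ← mul_assoc, ← sum_mul, pow_zero, mul_one, one_mul] at h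
    set A := ∑ j ∈ range J, r (j + 1) * (X ^ q) ^ j
    set B := ∑ j ∈ range J, s (j + 1) * (X ^ q) ^ j
    have h1 : X ^ q ∣ r 0 ^ 2 * f - C e * s 0 ^ 2 :=
      ⟨(B * X ^ q + s 0) ^ 2 * W + C e * (B ^ 2 * X ^ q + 2 * B * s 0) -
        (A ^ 2 * X ^ q + 2 * A * r 0) * f, by linear_combination h⟩
    have h2 : r 0 ^ 2 * f - C e * s 0 ^ 2 = 0 := by
      refine eq_zero_of_dvd_of_natDegree_lt h1 ?_
      rw [natDegree_X_pow]
      have a1 := natDegree_mul_le (p := r 0 ^ 2) (q := f)
      have a2 := natDegree_pow_le (p := r 0) (n := 2)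
      have a3 := natDegree_pow_le (p := s 0) (n := 2)
      have a4 := natDegree_C_mul_le e (s 0 ^ 2)
      have a5 := natDegree_sub_le (r 0 ^ 2 * f) (C e * s 0 ^ 2)
      have a6 := hr 0
      omega
    have h3 : r 0 = 0 := H _ (s 0) e (sub_eq_zero.1 h2)
    have h4 : s 0 = 0 := by
      rw [h3] at h2
      have : C e * s 0 ^ 2 = 0 := by linear_combination -h2
      simpa [he] using this
    rw [h3, h4] at h
    have h5 : A ^ 2 * f = B ^ 2 * (C e + X ^ q * W) := by
      refine mul_left_cancel₀ (pow_ne_zero 2 (pow_ne_zero q (X_ne_zero (R := F)))) ?_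
      linear_combination h
    have h6 := ih (fun j => r (j + 1)) (fun j => s (j + 1)) (fun j => hr _) h5
    intro j hj
    rcases j with _ | j
    · exact ⟨h3, h4⟩
    · exact h6 j (by omega)

/-- a nonzero solution of the linear system -/
lemma exists_aux {f : F[X]} {m : ℕ} (hm : f.natDegree ≤ m) (a : F) (l c d J : ℕ)
    (h : l * (d + l * m + J) < J * (2 * (d + 1))) :
    ∃ r s : ℕ → F[X], (∀ j, (r j).natDegree ≤ d ∧ (s j).natDegree ≤ d) ∧
      (∃ j < J, ¬ (r j = 0 ∧ s j = 0)) ∧
      ∀ k < l, ∑ j ∈ range J, (opP f l k (r j) + C a * opP f (l + c) k (s j)) * X ^ j = 0 := by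
  let V := Fin J → degreeLT F (d + 1) × degreeLT F (d + 1)
  let σ : ℕ → V →ₗ[F] F[X] := fun k => ∑ j : Fin J, LinearMap.mulRight F (X ^ (j : ℕ)) ∘ₗ
    (opP f l k ∘ₗ (degreeLT F (d + 1)).subtype ∘ₗ LinearMap.fst _ _ _ +
      LinearMap.mulLeft F (C a) ∘ₗ opP f (l + c) k ∘ₗ (degreeLT F (d + 1)).subtype ∘ₗ
        LinearMap.snd _ _ _) ∘ₗ LinearMap.proj j
  have hσ : ∀ k v, σ k v = ∑ j : Fin J,
      (opP f l k (v j).1 + C a * opP f (l + c) k (v j).2) * X ^ (j : ℕ) := fun k v => by
    simp only [σ, LinearMap.sum_apply]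
    rfl
  let Φ : V →ₗ[F] (Fin l → Fin (d + l * m + J) → F) :=
    LinearMap.pi fun k => LinearMap.pi fun i => lcoeff F i ∘ₗ σ k
  have hfin : Module.Finite F (degreeLT F (d + 1)) :=
    Module.Finite.equiv (degreeLTEquiv F (d + 1)).symm
  have hrk : Module.finrank F (degreeLT F (d + 1)) = d + 1 := by
    rw [(degreeLTEquiv F (d + 1)).finrank_eq]; simp
  have hker : LinearMap.ker Φ ≠ ⊥ := by
    refine LinearMap.ker_ne_bot_of_finrank_lt ?_
    simp only [V, Module.finrank_pi_fintype, Module.finrank_prod, hrk, Module.finrank_self,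
      sum_const, card_univ, Fintype.card_fin, smul_eq_mul]
    rw [mul_one, ← two_mul]
    exact h
  obtain ⟨v, hv, hv0⟩ := Submodule.exists_mem_ne_zero_of_ne_bot hker
  have hdeg : ∀ p : degreeLT F (d + 1), (p : F[X]).natDegree ≤ d := fun p => by
    have := mem_degreeLT.1 p.2
    exact natDegree_le_iff_degree_le.2 (Order.le_of_lt_succ (by exact_mod_cast this))
  refine ⟨fun j => if hj : j < J then (v ⟨j, hj⟩).1 else 0,
    fun j => if hj : j < J then (v ⟨j, hj⟩).2 else 0, fun j => ?_, ?_, fun k hk => ?_⟩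
  · by_cases hj : j < J
    · simp only [dif_pos hj]; exact ⟨hdeg _, hdeg _⟩
    · simp [dif_neg hj]
  · by_contra hc
    push Not at hc
    refine hv0 (funext fun j => ?_)
    have := hc j j.2
    simp only [dif_pos j.2] at this
    exact Prod.ext (Subtype.ext this.1) (Subtype.ext this.2)
  · rw [← Fin.sum_univ_eq_sum_range (fun j => (opP f l k (if hj : j < J then (v ⟨j, hj⟩).1 else 0) +
      C a * opP f (l + c) k (if hj : j < J then (v ⟨j, hj⟩).2 else 0)) * X ^ j) J]
    simp only [Fin.is_lt, dif_pos, Fin.eta]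
    rw [← hσ]
    have h1 : (σ k v).natDegree < d + l * m + J := by
      have hJ : 0 < J := Nat.pos_of_ne_zero (by rintro rfl; simp at h)
      refine lt_of_le_of_lt (b := d + l * m + (J - 1)) ?_ (by omega)
      rw [hσ]
      refine natDegree_sum_le_of_forall_le _ _ fun j _ => natDegree_mul_le.trans ?_
      have a1 := opP_deg hm l k (v j).1
      have a2 := opP_deg hm (l + c) k (v j).2
      have a3 := natDegree_C_mul_le a (opP f (l + c) k (v j).2)
      have a4 := natDegree_add_le (opP f l k (v j).1) (C a * opP f (l + c) k (v j).2)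
      have a5 := hdeg (v j).1
      have a6 := hdeg (v j).2
      have a7 : k * m ≤ l * m := Nat.mul_le_mul_right _ hk.le
      have a8 := j.2
      rw [natDegree_X_pow]
      omega
    ext i
    by_cases hi : i < d + l * m + J
    · exact congrFun (congrFun (LinearMap.mem_ker.1 hv) ⟨k, hk⟩) ⟨i, hi⟩
    · exact coeff_eq_zero_of_natDegree_lt (by omega)

end Op

lemma step_count {q : ℕ} [Fact q.Prime] {c : ℕ} (hq : q = 2 * c + 1) {f : (ZMod q)[X]} {m : ℕ}
    (hm : f.natDegree ≤ m) (h0 : f.eval 0 ≠ 0)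
    (H : ∀ (r s : (ZMod q)[X]) (a : ZMod q), r ^ 2 * f = C a * s ^ 2 → r = 0) (a : ZMod q)
    {l d J : ℕ} (hl : l < q) (hd : 2 * d + m < q) (h : l * (d + l * m + J) < J * (2 * (d + 1))) :
    l * #{x : ZMod q | f.eval x = 0 ∨ f.eval x ^ c = a} ≤ (l + c) * m + d + (J - 1) * q := by
  obtain ⟨r, s, hr, ⟨j0, hj0, hne⟩, hσ⟩ := exists_aux hm a l c d J h
  set R : (ZMod q)[X] := ∑ j ∈ range J, (f ^ l * r j + f ^ (l + c) * s j) * (X ^ q) ^ j with hR
  have hf0 : f ≠ 0 := by rintro rfl; simp at h0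
  have hR0 : R ≠ 0 := by
    intro hz
    have e1 : f ^ l * (∑ j ∈ range J, r j * (X ^ q) ^ j +
        f ^ c * ∑ j ∈ range J, s j * (X ^ q) ^ j) = 0 := by
      rw [← hz, hR, mul_sum, ← sum_add_distrib, mul_sum]
      exact sum_congr rfl fun j _ => by ring
    have e2 := (mul_eq_zero.1 e1).resolve_left (pow_ne_zero _ hf0)
    have e3 : f ^ q = C (f.eval 0) + X ^ q * divX f ^ q := by
      conv_lhs => rw [← X_mul_divX_add f, add_pow_char, ← C_pow, ZMod.pow_card, mul_pow]
      rw [coeff_zero_eq_eval_zero, add_comm]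
    refine hne (indep (W := divX f ^ q) (q := q) (d := d) h0 H (by omega) J r s hr ?_ j0 hj0)
    rw [← e3, eq_neg_of_add_eq_zero_left e2]
    conv_rhs => rw [show f ^ q = f ^ (2 * c + 1) by rw [← hq]]
    ring
  have hdeg : R.natDegree ≤ (l + c) * m + d + (J - 1) * q := by
    refine natDegree_sum_le_of_forall_le _ _ fun j hj => natDegree_mul_le.trans ?_
    have a1 := natDegree_mul_le (p := f ^ l) (q := r j)
    have a2 := natDegree_mul_le (p := f ^ (l + c)) (q := s j)
    have a3 := natDegree_add_le (f ^ l * r j) (f ^ (l + c) * s j)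
    have a4 := natDegree_pow_le_of_le l hm
    have a5 := natDegree_pow_le_of_le (l + c) hm
    have a6 := hr j
    have a7 : l * m ≤ (l + c) * m := Nat.mul_le_mul_right _ (by omega)
    have a8 : j * q ≤ (J - 1) * q := Nat.mul_le_mul_right _ (by have := mem_range.1 hj; omega)
    rw [natDegree_pow, natDegree_X_pow]
    omega
  have hT : ∀ j, derivative ((X ^ q : (ZMod q)[X]) ^ j) = 0 := fun j => by
    rw [derivative_pow, derivative_X_pow]
    simp
  have hmult : ∀ x : ZMod q, (f.eval x = 0 ∨ f.eval x ^ c = a) → l ≤ R.rootMultiplicity x := by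
    intro x hx
    rcases l with _ | l
    · omega
    refine lt_rootMultiplicity_of_isRoot_iterate_derivative_of_mem_nonZeroDivisors' hR0
      (fun k hk => ?_) fun k hk hk0 => mem_nonZeroDivisors_of_ne_zero fun e => ?_
    · have e1 : derivative^[k] R = f ^ (l + 1 - k) * ∑ j ∈ range J,
          (opP f (l + 1) k (r j) + f ^ c * opP f (l + 1 + c) k (s j)) * (X ^ q) ^ j := by
        rw [hR, iterate_derivative_sum, mul_sum]
        refine sum_congr rfl fun j _ => ?_
        rw [iter_mul_const _ _ (hT j), iterate_map_add, iter_pow_mul _ _ (by omega),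
          iter_pow_mul _ _ (by omega), show l + 1 + c - k = l + 1 - k + c by omega]
        ring
      rw [IsRoot.def, e1, eval_mul, eval_pow]
      rcases hx with hx | hx
      · rw [hx, zero_pow (by omega), zero_mul]
      · have e2 := congrArg (eval x) (hσ k (by omega))
        simp only [eval_finsetSum, eval_mul, eval_add, eval_pow, eval_X, eval_C, eval_zero,
          ZMod.pow_card, hx] at e2 ⊢
        rw [e2, mul_zero]
    · exact absurd (Nat.le_of_dvd (by omega) ((ZMod.natCast_eq_zero_iff k q).1 e)) (by omega)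
  refine le_trans ?_ ((card_roots' R).trans hdeg)
  rw [← Multiset.sum_count_eq_card (s := univ) (fun _ _ => mem_univ _), mul_comm, ← smul_eq_mul,
    ← sum_const]
  refine le_trans (sum_le_sum fun x hx => ?_) (sum_le_sum_of_subset (filter_subset _ _))
  rw [count_roots]
  exact hmult x (mem_filter.1 hx).2

lemma step_real {q : ℕ} [Fact q.Prime] (hq2 : q ≠ 2) {f : (ZMod q)[X]} {m : ℕ} (hm1 : 1 ≤ m)
    (hm : f.natDegree ≤ m) (h0 : f.eval 0 ≠ 0)
    (H : ∀ (r s : (ZMod q)[X]) (a : ZMod q), r ^ 2 * f = C a * s ^ 2 → r = 0) (a : ZMod q) :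
    2 * (#{x : ZMod q | f.eval x = 0 ∨ f.eval x ^ (q / 2) = a} : ℝ) - q ≤ 12 * m * √q := by
  obtain ⟨c, hc⟩ : ∃ c, q = 2 * c + 1 := (Fact.out : q.Prime).odd_of_ne_two hq2
  have hc' : q / 2 = c := by omega
  rw [hc']
  obtain ⟨h, h1, h2⟩ : ∃ h, 4 * (h * h) ≤ q ∧ q ≤ 4 * ((h + 1) * (h + 1)) := by
    refine ⟨Nat.sqrt (q / 4), ?_, ?_⟩
    · have := Nat.sqrt_le (q / 4); omega
    · have := Nat.lt_succ_sqrt (q / 4)
      simp only [Nat.succ_eq_add_one] at this
      omega
  have s1 : √(q : ℝ) * √(q : ℝ) = q := Real.mul_self_sqrt (by positivity)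
  have s2 : √(q : ℝ) ≤ 2 * (h + 1) := by
    rw [Real.sqrt_le_left (by positivity)]
    have : (q : ℝ) ≤ 4 * ((h + 1) * (h + 1)) := by exact_mod_cast h2
    linarith
  have s0 : 1 ≤ √(q : ℝ) := Real.one_le_sqrt.2 (by exact_mod_cast (by omega : 1 ≤ q))
  have hm1' : (1 : ℝ) ≤ m := by exact_mod_cast hm1
  set N := #{x : ZMod q | f.eval x = 0 ∨ f.eval x ^ c = a} with hN
  by_cases hb : 3 * m ≤ h
  · obtain ⟨d, hd⟩ : ∃ d, c = d + m := ⟨c - m, by have : h ≤ h * h := Nat.le_mul_self h; omega⟩
    have h3 : h < h * h := by nlinarith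
    have h4 := step_count hc hm h0 H a (l := 2 * h) (d := d) (J := h + 3 * m) (by omega) (by omega)
      (by
        have a1 : m * (4 * (h * h)) ≤ m * (2 * c + 1) := Nat.mul_le_mul_left _ (by omega)
        have a2 : h * (3 * m) ≤ h * h := Nat.mul_le_mul_left _ hb
        have a3 : 1 * (2 * c + 1) ≤ m * (2 * c + 1) := Nat.mul_le_mul_right _ hm1
        have a4 : m * (4 * c + 2) ≤ m * (6 * (d + 1)) := Nat.mul_le_mul_left _ (by omega)
        nlinarith)
    have h5 : (h + 3 * m - 1) * q + q = (h + 3 * m) * q := by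
      rw [← Nat.succ_mul]; congr 1; omega
    have h6 : 2 * (2 * h * N) ≤ 2 * h * q + 4 * h * m + 7 * m * q := by
      rw [← hN] at h4
      nlinarith
    have h7 : (2 * (2 * h * N) : ℝ) ≤ 2 * h * q + 4 * h * m + 7 * m * q := by exact_mod_cast h6
    have h8 : (3 : ℝ) ≤ h := by exact_mod_cast (by omega : 3 ≤ h)
    have h9 : (q : ℝ) ≤ 8 / 3 * h * √q := by nlinarith
    refine le_of_mul_le_mul_left ?_ (show (0 : ℝ) < 2 * h by linarith)
    have h10 := mul_le_mul_of_nonneg_left h9 (show (0 : ℝ) ≤ m by linarith)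
    have h11 := mul_le_mul_of_nonneg_left s0 (show (0 : ℝ) ≤ h * m by positivity)
    have h12 : (0 : ℝ) ≤ h * m * √q := by positivity
    nlinarith
  · have h3 : (h : ℝ) + 1 ≤ 3 * m := by exact_mod_cast (by omega : h + 1 ≤ 3 * m)
    have h4 : (N : ℝ) ≤ q := by
      have := card_le_univ (filter (fun x : ZMod q => f.eval x = 0 ∨ f.eval x ^ c = a) univ)
      rw [ZMod.card] at this
      exact_mod_cast this
    nlinarith

/-- The Weil bound, with a constant, by Stepanov's method. -/
theorem weil {q : ℕ} [Fact q.Prime] (hq2 : q ≠ 2) {f : (ZMod q)[X]} {m : ℕ} (hm1 : 1 ≤ m)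
    (hm : f.natDegree ≤ m)
    (H : ∀ (r s : (ZMod q)[X]) (a : ZMod q), r ^ 2 * f = C a * s ^ 2 → r = 0) :
    |∑ x : ZMod q, (quadraticChar (ZMod q) (f.eval x) : ℝ)| ≤ 12 * m * √q := by
  by_cases hz : ∀ x, f.eval x = 0
  · simp only [hz, MulChar.map_zero, Int.cast_zero, sum_const_zero, abs_zero]; positivity
  push Not at hz
  obtain ⟨y, hy⟩ := hz
  have H' : ∀ (r s : (ZMod q)[X]) (a : ZMod q), r ^ 2 * taylor y f = C a * s ^ 2 → r = 0 := by
    intro r s a e
    have e1 := congrArg (taylor (-y)) e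
    rw [taylor_mul, taylor_mul, taylor_pow, taylor_pow, taylor_taylor, neg_add_cancel, taylor_zero,
      taylor_C] at e1
    exact (taylor_eq_zero _ _).1 (H _ _ _ e1)
  have key := step_real hq2 hm1 ((natDegree_taylor f y).le.trans hm)
    (by rwa [taylor_eval, zero_add]) H'
  rw [← Equiv.sum_comp (Equiv.addRight y)]
  simp only [Equiv.coe_addRight, ← taylor_eval]
  set g := taylor y f
  have hch : ringChar (ZMod q) ≠ 2 := by rwa [ZMod.ringChar_zmod_n]
  have hsum : ∀ a : ZMod q, ∑ x : ZMod q, (2 * (if g.eval x = 0 ∨ g.eval x ^ (q / 2) = a then 1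
      else 0) - 1 : ℝ) ≤ 12 * m * √q := fun a => by
    rw [sum_sub_distrib, ← mul_sum, sum_boole, sum_const, card_univ, ZMod.card, nsmul_one]
    exact key a
  have hb : ∀ z : ZMod q, -1 ≤ (quadraticChar (ZMod q) z : ℝ) ∧ (quadraticChar (ZMod q) z : ℝ) ≤ 1 :=
    fun z => by
      rcases quadraticChar_isQuadratic (ZMod q) z with e | e | e <;> rw [e] <;> norm_num
  rw [abs_le, neg_le, ← sum_neg_distrib]
  refine ⟨le_trans (sum_le_sum fun x _ => ?_) (hsum (-1)),
    le_trans (sum_le_sum fun x _ => ?_) (hsum 1)⟩ <;> split_ifs with e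
  · linarith [hb (g.eval x)]
  · push Not at e
    rw [quadraticChar_eq_pow_of_char_ne_two hch e.1, ZMod.card,
      if_pos ((ZMod.pow_div_two_eq_neg_one_or_one q e.1).resolve_right e.2)]
    norm_num
  · linarith [hb (g.eval x)]
  · push Not at e
    rw [quadraticChar_eq_pow_of_char_ne_two hch e.1, ZMod.card, if_neg e.2]
    norm_num

/-- a polynomial with a simple root in some extension is not a constant times a square -/
lemma not_sq_of_simple {F K : Type*} [Field F] [Field K] [Algebra F K] {f : F[X]} {ξ : K}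
    (h0 : aeval ξ f = 0) (h1 : aeval ξ (derivative f) ≠ 0) (r s : F[X]) (a : F)
    (e : r ^ 2 * f = C a * s ^ 2) : r = 0 := by
  by_contra hr
  set φ := algebraMap F K
  have hf : f ≠ 0 := by rintro rfl; simp at h1
  have hf' : f.map φ ≠ 0 := map_ne_zero hf
  have hr' : r.map φ ≠ 0 := map_ne_zero hr
  have e1 : r.map φ * r.map φ * f.map φ = C (φ a) * (s.map φ * s.map φ) := by
    have := congrArg (Polynomial.map φ) e
    simpa [sq] using this
  have hne : r.map φ * r.map φ * f.map φ ≠ 0 := mul_ne_zero (mul_ne_zero hr' hr') hf'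
  have m1 : (f.map φ).rootMultiplicity ξ = 1 := by
    have a1 : 0 < (f.map φ).rootMultiplicity ξ :=
      (rootMultiplicity_pos hf').2 (by rwa [IsRoot.def, eval_map_algebraMap])
    by_contra hc
    have a2 := (one_lt_rootMultiplicity_iff_isRoot hf').1 (show 1 < (f.map φ).rootMultiplicity ξ by omega)
    rw [derivative_map, IsRoot.def, IsRoot.def, eval_map_algebraMap, eval_map_algebraMap] at a2
    exact h1 a2.2
  have m2 := rootMultiplicity_mul (x := ξ) hne
  rw [rootMultiplicity_mul (mul_ne_zero hr' hr'), m1, e1, rootMultiplicity_mul (e1 ▸ hne),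
    rootMultiplicity_C, rootMultiplicity_mul (right_ne_zero_of_mul (e1 ▸ hne))] at m2
  omega

end Pool.Agent.P.MP_74dd9d_nt.PS
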